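import Mathlib

/-!
A normed space of sequences with the norm `sup_N (1/(N+1)) * sum_{j ≤ N} |x j|`, the backward
shift on it, and the weak type inequality for the one-sided maximal function.
-/

set_option autoImplicit false

open Finset

noncomputable section
namespace Pool.Agent.H834Z.FRec

/-- partial sums of absolute values -/
def F (x : ℕ → ℝ) (n : ℕ) : ℝ := ∑ j ∈ range n, |x j|

lemma F_mono (x : ℕ → ℝ) {a b : ℕ} (h : a ≤ b) : F x a ≤ F x b :=
  sum_le_sum_of_subset_of_nonneg (range_subset_range.2 h) (fun _ _ _ => abs_nonneg _)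

lemma F_nonneg (x : ℕ → ℝ) (a : ℕ) : 0 ≤ F x a := sum_nonneg fun _ _ => abs_nonneg _

lemma F_shift (x : ℕ → ℝ) (n m : ℕ) : F (fun j => x (n + j)) m = F x (n + m) - F x n := by
  unfold F
  rw [sum_range_add]
  ring

open Classical in
/-- rising sun lemma -/
lemma rising (x : ℕ → ℝ) (lam : ℝ) (hl : 0 < lam) (L : ℕ) (bad : ℕ → Prop)
    (hbad : ∀ n, bad n → ∃ m, n < m ∧ lam * ((m : ℝ) - n) < F x m - F x n) :
    ∀ d a : ℕ, L - a ≤ d → a ≤ L → ∃ M, L ≤ M ∧
      lam * (((Ico a L).filter bad).card : ℝ) ≤ F x M - F x a ∧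
      (M = L ∨ lam * ((M : ℝ) - L) < F x M) := by
  intro d
  induction d with
  | zero =>
    intro a h1 h2
    have : a = L := by omega
    subst this
    exact ⟨a, le_rfl, by simp, Or.inl rfl⟩
  | succ d ih =>
    intro a h1 h2
    rcases eq_or_lt_of_le h2 with h | h
    · subst h
      exact ⟨a, le_rfl, by simp, Or.inl rfl⟩
    by_cases hb : bad a
    · obtain ⟨m, hm1, hm2⟩ := hbad a hb
      by_cases hmL : L ≤ m
      · refine ⟨m, hmL, ?_, Or.inr ?_⟩
        · have h3 : ((Ico a L).filter bad).card ≤ L - a := by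
            simpa using card_filter_le (Ico a L) bad
          have h4 : (((Ico a L).filter bad).card : ℝ) ≤ (m : ℝ) - a := by
            have : (((Ico a L).filter bad).card : ℝ) ≤ ((L - a : ℕ) : ℝ) := by exact_mod_cast h3
            rw [Nat.cast_sub h2] at this
            have h5 : (L : ℝ) ≤ m := by exact_mod_cast hmL
            linarith
          nlinarith
        · have h5 : (a : ℝ) ≤ L := by exact_mod_cast h2
          have := F_nonneg x a
          nlinarith
      · push Not at hmL
        obtain ⟨M, hM1, hM2, hM3⟩ := ih m (by omega) hmL.le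
        refine ⟨M, hM1, ?_, hM3⟩
        have h3 : ((Ico a L).filter bad).card ≤ (m - a) + ((Ico m L).filter bad).card := by
          have : (Ico a L).filter bad ⊆ Ico a m ∪ (Ico m L).filter bad := by
            intro i hi
            simp only [mem_filter, mem_Ico, mem_union] at hi ⊢
            by_cases him : i < m
            · left; omega
            · right; exact ⟨⟨by omega, hi.1.2⟩, hi.2⟩
          refine (card_le_card this).trans ((card_union_le _ _).trans ?_)
          simp
        have h4 : (((Ico a L).filter bad).card : ℝ) ≤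
            ((m : ℝ) - a) + ((Ico m L).filter bad).card := by
          have : (((Ico a L).filter bad).card : ℝ) ≤
              ((m - a + ((Ico m L).filter bad).card : ℕ) : ℝ) := by exact_mod_cast h3
          rw [Nat.cast_add, Nat.cast_sub hm1.le] at this
          exact this
        nlinarith
    · obtain ⟨M, hM1, hM2, hM3⟩ := ih (a + 1) (by omega) h
      refine ⟨M, hM1, ?_, hM3⟩
      have h3 : (Ico a L).filter bad = (Ico (a + 1) L).filter bad := by
        ext i
        simp only [mem_filter, mem_Ico]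
        constructor
        · rintro ⟨⟨h4, h5⟩, h6⟩
          refine ⟨⟨?_, h5⟩, h6⟩
          rcases eq_or_lt_of_le h4 with h7 | h7
          · subst h7; exact absurd h6 hb
          · exact h7
        · rintro ⟨⟨h4, h5⟩, h6⟩
          exact ⟨⟨by omega, h5⟩, h6⟩
      rw [h3]
      have := F_mono x (Nat.le_succ a)
      linarith

open Classical in
/-- weak type inequality -/
lemma weak (x : ℕ → ℝ) (lam rho : ℝ) (hl : 0 < lam) (hr : 2 * rho ≤ lam) (hr0 : 0 ≤ rho)
    (hx : ∀ n : ℕ, F x n ≤ rho * n) (L : ℕ) (bad : ℕ → Prop)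
    (hbad : ∀ n, bad n → ∃ m, n < m ∧ lam * ((m : ℝ) - n) < F x m - F x n) :
    lam * (((range L).filter bad).card : ℝ) ≤ 2 * rho * L := by
  obtain ⟨M, hM1, hM2, hM3⟩ := rising x lam hl L bad hbad L 0 (by omega) (Nat.zero_le _)
  rw [← range_eq_Ico] at hM2
  have h0 : F x 0 = 0 := by simp [F]
  have h1 := hx M
  have hL : (0 : ℝ) ≤ L := Nat.cast_nonneg _
  have hM : (M : ℝ) ≤ 2 * L := by
    rcases hM3 with h | h
    · rw [h]; linarith
    · by_contra hc
      push Not at hc
      have hM0 : (0 : ℝ) ≤ M := Nat.cast_nonneg _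
      nlinarith
  nlinarith

lemma per_mul {x : ℕ → ℝ} {p : ℕ} (hx : ∀ j, x (j + 1 + p) = x (j + 1)) (j k : ℕ) :
    x (j + 1 + p * k) = x (j + 1) := by
  induction k with
  | zero => simp
  | succ k ih =>
    have h := hx (j + p * k)
    have e1 : j + p * k + 1 + p = j + 1 + p * (k + 1) := by ring
    have e2 : j + p * k + 1 = j + 1 + p * k := by ring
    rw [e1, e2] at h
    rw [h, ih]

/-- bounded sequences that are periodic from the index 1 on -/
def P : Submodule ℝ (ℕ → ℝ) where
  carrier := {x | (∃ C, ∀ j, |x j| ≤ C) ∧ ∃ p, 0 < p ∧ ∀ j, x (j + 1 + p) = x (j + 1)}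
  add_mem' := by
    rintro x y ⟨⟨C, hC⟩, p, hp, hx⟩ ⟨⟨D, hD⟩, q, hq, hy⟩
    refine ⟨⟨C + D, fun j => (abs_add_le _ _).trans (add_le_add (hC j) (hD j))⟩, p * q,
      Nat.mul_pos hp hq, fun j => ?_⟩
    have h1 := per_mul hx j q
    have h2 := per_mul hy j p
    rw [mul_comm] at h2
    simp [h1, h2]
  zero_mem' := ⟨⟨0, by simp⟩, 1, one_pos, by simp⟩
  smul_mem' := by
    rintro c x ⟨⟨C, hC⟩, p, hp, hx⟩
    refine ⟨⟨|c| * C, fun j => ?_⟩, p, hp, fun j => by simp [hx]⟩
    simp only [Pi.smul_apply, smul_eq_mul, abs_mul]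
    exact mul_le_mul_of_nonneg_left (hC j) (abs_nonneg _)

/-- the underlying space -/
def V : Type := P

instance : AddCommGroup V := inferInstanceAs (AddCommGroup P)
instance : Module ℝ V := inferInstanceAs (Module ℝ P)

/-- the sequence of a vector -/
def sq (x : V) : ℕ → ℝ := (show P from x).1

lemma sq_add (x y : V) (j : ℕ) : sq (x + y) j = sq x j + sq y j := rfl
lemma sq_neg (x : V) (j : ℕ) : sq (-x) j = - sq x j := rfl
lemma sq_sub (x y : V) (j : ℕ) : sq (x - y) j = sq x j - sq y j := rfl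
lemma sq_zero (j : ℕ) : sq 0 j = 0 := rfl
lemma sq_smul (c : ℝ) (x : V) (j : ℕ) : sq (c • x) j = c * sq x j := rfl
lemma sq_ext {x y : V} (h : ∀ j, sq x j = sq y j) : x = y := Subtype.ext (funext h)
lemma sq_mem (x : V) : sq x ∈ P := (show P from x).2

/-- averages -/
def avg (x : V) (N : ℕ) : ℝ := F (sq x) (N + 1) / (N + 1)

lemma avg_nonneg (x : V) (N : ℕ) : 0 ≤ avg x N :=
  div_nonneg (F_nonneg _ _) (by positivity)

lemma bdd (x : V) : BddAbove (Set.range (avg x)) := by
  obtain ⟨⟨C, hC⟩, -⟩ := sq_mem x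
  refine ⟨C, ?_⟩
  rintro _ ⟨N, rfl⟩
  unfold avg F
  rw [div_le_iff₀ (by positivity)]
  have := sum_le_card_nsmul (range (N + 1)) (fun j => |sq x j|) C (fun j _ => hC j)
  simp only [card_range, nsmul_eq_mul] at this
  push_cast at this
  linarith

/-- the norm -/
def nm (x : V) : ℝ := ⨆ N, avg x N

lemma avg_le (x : V) (N : ℕ) : avg x N ≤ nm x := le_ciSup (bdd x) N

lemma nm_le {x : V} {C : ℝ} (h : ∀ N, avg x N ≤ C) : nm x ≤ C := ciSup_le h

lemma nm_nonneg (x : V) : 0 ≤ nm x := (avg_nonneg x 0).trans (avg_le x 0)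

lemma F_le (x : V) (n : ℕ) : F (sq x) n ≤ nm x * n := by
  rcases n with _ | n
  · simp [F]
  · have := avg_le x n
    unfold avg at this
    rw [div_le_iff₀ (by positivity)] at this
    push_cast
    exact this

lemma nm_le' {x : V} {C : ℝ} (h : ∀ N : ℕ, F (sq x) (N + 1) ≤ C * (N + 1)) : nm x ≤ C := by
  refine nm_le fun N => ?_
  unfold avg
  rw [div_le_iff₀ (by positivity)]
  exact h N

lemma nm_smul_le (c : ℝ) (x : V) : nm (c • x) ≤ |c| * nm x := by
  refine nm_le' fun N => ?_
  have h1 : F (sq (c • x)) (N + 1) = |c| * F (sq x) (N + 1) := by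
    unfold F
    rw [mul_sum]
    exact sum_congr rfl fun j _ => by rw [sq_smul, abs_mul]
  have h2 := F_le x (N + 1)
  push_cast at h2
  rw [h1, mul_assoc]
  exact mul_le_mul_of_nonneg_left h2 (abs_nonneg _)

/-- the norm as a group norm -/
def gn : AddGroupNorm V where
  toFun := nm
  map_zero' := le_antisymm (nm_le' fun N => by simp [F, sq_zero]) (nm_nonneg _)
  add_le' := fun x y => by
    refine nm_le' fun N => ?_
    have h1 : F (sq (x + y)) (N + 1) ≤ F (sq x) (N + 1) + F (sq y) (N + 1) := by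
      unfold F
      rw [← sum_add_distrib]
      exact sum_le_sum fun j _ => by rw [sq_add]; exact abs_add_le _ _
    have h2 := F_le x (N + 1)
    have h3 := F_le y (N + 1)
    push_cast at h2 h3
    linarith
  neg' := fun x => by
    unfold nm avg F
    simp [sq_neg]
  eq_zero_of_map_eq_zero' := fun x hx => by
    refine sq_ext fun j => ?_
    have h1 := F_le x (j + 1)
    have hx' : nm x = 0 := hx
    rw [hx', zero_mul] at h1
    have h2 : |sq x j| ≤ F (sq x) (j + 1) :=
      single_le_sum (f := fun j => |sq x j|) (fun _ _ => abs_nonneg _) (self_mem_range_succ j)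
    rw [sq_zero]
    exact abs_nonpos_iff.1 (h2.trans h1)

instance : NormedAddCommGroup V := gn.toNormedAddCommGroup

lemma norm_def (x : V) : ‖x‖ = nm x := rfl

instance : NormedSpace ℝ V where
  norm_smul_le c x := by
    rw [norm_def, norm_def, Real.norm_eq_abs]
    exact nm_smul_le c x

/-- the backward shift as a linear map -/
def Tl : V →ₗ[ℝ] V where
  toFun x := (⟨fun j => sq x (j + 1), by
    obtain ⟨⟨C, hC⟩, p, hp, hx⟩ := sq_mem x
    refine ⟨⟨C, fun j => hC _⟩, p, hp, fun j => ?_⟩
    have := hx (j + 1)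
    have e : j + 1 + 1 + p = j + 1 + p + 1 := by ring
    rw [e] at this
    exact this⟩ : P)
  map_add' _ _ := rfl
  map_smul' _ _ := rfl

lemma sq_Tl (x : V) (j : ℕ) : sq (Tl x) j = sq x (j + 1) := rfl

/-- the backward shift -/
def T : V →L[ℝ] V := Tl.mkContinuous 2 (fun x => by
  rw [norm_def, norm_def]
  refine nm_le' fun N => ?_
  have h1 : F (sq (Tl x)) (N + 1) ≤ F (sq x) (N + 1 + 1) := by
    unfold F
    rw [sum_range_succ' _ (N + 1)]
    simp only [sq_Tl]
    linarith [abs_nonneg (sq x 0)]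
  have h2 := F_le x (N + 1 + 1)
  push_cast at h2
  have h3 := nm_nonneg x
  have h4 : (0 : ℝ) ≤ N := Nat.cast_nonneg _
  nlinarith)

lemma sq_T (x : V) (j : ℕ) : sq (T x) j = sq x (j + 1) := rfl

lemma sq_pow (n : ℕ) (x : V) (j : ℕ) : sq ((T ^ n) x) j = sq x (n + j) := by
  induction n generalizing x with
  | zero => simp
  | succ n ih =>
    rw [pow_succ, mul_apply_eq_comp, ih, sq_T]
    congr 1
    ring

open Classical in
lemma weakV (x : V) (lam rho : ℝ) (hl : 0 < lam) (hr : 2 * rho ≤ lam) (hx : ‖x‖ ≤ rho) (L : ℕ) :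
    lam * (((range L).filter fun n => lam < ‖(T ^ n) x‖).card : ℝ) ≤ 2 * rho * L := by
  refine weak (sq x) lam rho hl hr ((norm_nonneg _).trans hx) (fun n => ?_) L _ ?_
  · exact (F_le x n).trans (mul_le_mul_of_nonneg_right hx (Nat.cast_nonneg _))
  · intro n hn
    by_contra hc
    push Not at hc
    refine absurd hn (not_lt.2 ?_)
    rw [norm_def]
    refine nm_le' fun N => ?_
    have h1 : sq ((T ^ n) x) = fun j => sq x (n + j) := funext (sq_pow n x)
    rw [h1, F_shift]
    have := hc (n + (N + 1)) (by omega)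
    push_cast at this
    linarith

/-- periodic vectors are dense -/
lemma dense_per (x : V) (ε : ℝ) (hε : 0 < ε) :
    ∃ y : V, ‖x - y‖ ≤ ε ∧ ∃ p, 0 < p ∧ (T ^ p) y = y := by
  obtain ⟨⟨C, hC⟩, p, hp, hx⟩ := sq_mem x
  have hC0 : 0 ≤ C := (abs_nonneg _).trans (hC 0)
  obtain ⟨k, hk⟩ := exists_nat_gt (2 * C / ε)
  have hk0 : 0 < k := by
    have : (0 : ℝ) < k := lt_of_le_of_lt (by positivity) hk
    exact_mod_cast this
  have h1 : ∀ j i, sq x (j + 1 + p * i) = sq x (j + 1) := per_mul hx
  set q := p * k with hq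
  have hq0 : 0 < q := Nat.mul_pos hp hk0
  have hqk : k ≤ q := Nat.le_mul_of_pos_left k hp
  let y : V := (⟨fun j => sq x (j % q), ⟨C, fun j => hC _⟩, q, hq0, fun j => by simp⟩ : P)
  have hy : ∀ j, sq y j = sq x (j % q) := fun j => rfl
  refine ⟨y, ?_, q, hq0, sq_ext fun j => ?_⟩
  · rw [norm_def]
    refine nm_le' fun N => ?_
    have h2 : F (sq (x - y)) (N + 1) ≤
        ∑ j ∈ range (N + 1), (if j ≠ 0 ∧ q ∣ j then 2 * C else 0) := by
      refine sum_le_sum fun j _ => ?_
      rw [sq_sub, hy]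
      split_ifs with h
      · have := hC j
        have := hC (j % q)
        have := abs_sub (sq x j) (sq x (j % q))
        linarith
      · have h3 : sq x j = sq x (j % q) := by
          by_cases hj : j = 0
          · simp [hj]
          · have h4 : ¬ q ∣ j := fun h5 => h ⟨hj, h5⟩
            have h5 : j % q ≠ 0 := fun h6 => h4 (Nat.dvd_of_mod_eq_zero h6)
            obtain ⟨r, hr⟩ := Nat.exists_eq_succ_of_ne_zero h5
            have h6 := h1 r (k * (j / q))
            have h7 : r + 1 + p * (k * (j / q)) = j := by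
              have := Nat.mod_add_div j q
              rw [hr] at this
              rw [← mul_assoc, ← hq]
              exact this
            rw [h7] at h6
            rw [hr, h6]
        rw [h3]
        simp
    rw [← sum_filter, sum_const, nsmul_eq_mul, Nat.card_multiples'] at h2
    have h3 : ((N / q : ℕ) : ℝ) ≤ (N : ℝ) / q := Nat.cast_div_le
    have h4 : (N : ℝ) / q ≤ (N + 1) / k := by
      have : (k : ℝ) ≤ q := by exact_mod_cast hqk
      have hk1 : (0 : ℝ) < k := by exact_mod_cast hk0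
      have hN : (0 : ℝ) ≤ N := Nat.cast_nonneg _
      gcongr
      linarith
    have hk1 : (0 : ℝ) < k := by exact_mod_cast hk0
    rw [div_lt_iff₀ hε] at hk
    have h5 : ((N : ℝ) + 1) / k * (2 * C) ≤ ε * (N + 1) := by
      rw [div_mul_eq_mul_div, div_le_iff₀ hk1]
      have hN : (0 : ℝ) ≤ N := Nat.cast_nonneg _
      nlinarith
    have h6 : ((N / q : ℕ) : ℝ) * (2 * C) ≤ ((N : ℝ) + 1) / k * (2 * C) :=
      mul_le_mul_of_nonneg_right (h3.trans h4) (by positivity)
    linarith
  · rw [sq_pow, hy, hy]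
    simp

/-- the first unit vector -/
def e0 : V := (⟨fun j => if j = 0 then 1 else 0, ⟨1, fun j => by dsimp only; split_ifs <;> simp⟩, 1, one_pos,
  fun j => by simp⟩ : P)

lemma e0_ne : e0 ≠ 0 := by
  intro h
  have h1 : sq e0 0 = 1 := rfl
  rw [h, sq_zero] at h1
  exact zero_ne_one h1

lemma T_e0 : T e0 = 0 := sq_ext fun j => by
  rw [sq_T, sq_zero]
  rfl

end Pool.Agent.H834Z.FRec
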