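import Pool.Agent.H834Z.FRecA

/-!
The completion of the space of `FRecA`: the frequently recurrent vectors of the backward shift form
a residual set that is not the whole space.
-/

set_option autoImplicit false

open Finset UniformSpace Topology

noncomputable section
namespace Pool.Agent.H834Z.FRec

/-- the Banach space -/
abbrev X : Type := Completion V

/-- the operator -/
def S : X →L[ℝ] X := T.completion

lemma S_pow_coe (n : ℕ) (x : V) : (S ^ n) (x : X) = (((T ^ n) x : V) : X) := by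
  induction n generalizing x with
  | zero => simp
  | succ n ih =>
    rw [pow_succ, pow_succ, mul_apply_eq_comp, mul_apply_eq_comp]
    have : S (x : X) = ((T x : V) : X) := ContinuousLinearMap.completion_apply_coe T x
    rw [this, ih]

open Classical in
lemma weakX (z : X) (lam rho : ℝ) (hl : 0 < lam) (hr : 2 * rho ≤ lam) (hz : ‖z‖ < rho) (L : ℕ) :
    lam * (((range L).filter fun n => 2 * lam ≤ ‖(S ^ n) z‖).card : ℝ) ≤ 2 * rho * L := by
  have h1 : ∀ᶠ w in 𝓝 z, ‖w‖ < rho ∧ ∀ n ∈ range L, ‖(S ^ n) w - (S ^ n) z‖ < lam := by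
    refine Filter.Eventually.and (continuous_norm.continuousAt.eventually_lt continuousAt_const hz) ?_
    rw [Filter.eventually_all_finset]
    intro n _
    have hc : Continuous fun w : X => ‖(S ^ n) w - (S ^ n) z‖ := by fun_prop
    exact hc.continuousAt.eventually_lt continuousAt_const (by simpa using hl)
  obtain ⟨w, hw1, hw2⟩ := Completion.denseRange_coe.mem_nhds h1
  rw [Completion.norm_coe] at hw1
  refine le_trans (mul_le_mul_of_nonneg_left ?_ hl.le) (weakV w lam rho hl hr hw1.le L)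
  refine Nat.cast_le.2 (card_le_card fun n hn => ?_)
  simp only [mem_filter] at hn ⊢
  refine ⟨hn.1, ?_⟩
  have h2 := hw2 n hn.1
  have h3 : ‖(S ^ n) z‖ ≤ ‖(S ^ n) (w : X)‖ + ‖(S ^ n) (w : X) - (S ^ n) z‖ := by
    have := norm_sub_le ((S ^ n) (w : X)) ((S ^ n) (w : X) - (S ^ n) z)
    simpa using this
  rw [S_pow_coe, Completion.norm_coe] at h3
  rw [S_pow_coe] at h2
  linarith [hn.2]

/-- the set of frequently recurrent vectors -/
def FR : Set X :=
  {x : X | ∀ U ∈ nhds x, ∃ δ : ℝ, 0 < δ ∧ ∃ N : ℕ, ∀ n : ℕ, N ≤ n →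
    δ * (n : ℝ) ≤ ((Set.ncard {k : ℕ | k < n ∧ (S ^ k) x ∈ U} : ℕ) : ℝ)}

lemma near_per (y : V) (p : ℕ) (hp : 0 < p) (hy : (T ^ p) y = y) (lam : ℝ) (hl : 0 < lam) (x : X)
    (hx : ‖x - y‖ < lam / (4 * p)) (n : ℕ) (hn : 4 * p ≤ n) :
    1 / (4 * p) * (n : ℝ) ≤
      ((Set.ncard {k : ℕ | k < n ∧ (S ^ k) x ∈ Metric.ball x (3 * lam)} : ℕ) : ℝ) := by
  classical
  have hp1 : (1 : ℝ) ≤ p := by exact_mod_cast hp
  have hrl : 2 * (lam / (4 * p)) ≤ lam := by
    rw [← mul_div_assoc, div_le_iff₀ (by positivity)]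
    nlinarith
  have h1 := weakX (x - y) lam (lam / (4 * p)) hl hrl hx n
  set bad := (range n).filter fun k => 2 * lam ≤ ‖(S ^ k) (x - y)‖ with hbad
  set mult := (range (n / p)).image (fun i => p * i) with hmult
  have hcard : mult.card = n / p := by
    rw [hmult, card_image_of_injective _ (mul_right_injective₀ hp.ne'), card_range]
  have hper : ∀ i, (T ^ (p * i)) y = y := by
    intro i
    induction i with
    | zero => simp
    | succ i ih => rw [mul_add, mul_one, pow_add, mul_apply_eq_comp, hy, ih]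
  have hsub : ((mult \ bad : Finset ℕ) : Set ℕ) ⊆
      {k : ℕ | k < n ∧ (S ^ k) x ∈ Metric.ball x (3 * lam)} := by
    intro k hk
    simp only [hmult, hbad, coe_sdiff, Set.mem_sdiff, mem_coe, mem_image, mem_range, mem_filter,
      not_and, not_le] at hk
    obtain ⟨⟨i, hi, rfl⟩, hk⟩ := hk
    have hlt : p * i < n := by
      have := Nat.mul_div_le n p
      have h2 : p * (i + 1) ≤ p * (n / p) := Nat.mul_le_mul_left p hi
      rw [mul_add, mul_one] at h2
      omega
    refine ⟨hlt, ?_⟩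
    have h2 := hk hlt
    rw [mem_ball_iff_norm]
    have h3 : (S ^ (p * i)) x - x = (S ^ (p * i)) (x - y) - (x - y) := by
      rw [map_sub, S_pow_coe, hper]
      abel
    rw [h3]
    have h4 := norm_sub_le ((S ^ (p * i)) (x - y)) (x - y)
    have h5 : 0 ≤ lam / (4 * p) := by positivity
    linarith
  have hfin : {k : ℕ | k < n ∧ (S ^ k) x ∈ Metric.ball x (3 * lam)}.Finite :=
    (Set.finite_lt_nat n).subset fun k hk => hk.1
  have h2 := Set.ncard_le_ncard hsub hfin
  rw [Set.ncard_coe_finset] at h2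
  have h3 : mult.card ≤ (mult \ bad).card + bad.card := by
    have := le_card_sdiff bad mult
    omega
  rw [hcard] at h3
  have h4 : ((n / p : ℕ) : ℝ) ≤
      ((Set.ncard {k : ℕ | k < n ∧ (S ^ k) x ∈ Metric.ball x (3 * lam)} : ℕ) : ℝ) + bad.card := by
    exact_mod_cast h3.trans (Nat.add_le_add_right h2 _)
  have h5 : (n : ℝ) / p - 1 ≤ ((n / p : ℕ) : ℝ) := by
    have h6 : n < p * (n / p + 1) := Nat.lt_mul_div_succ n hp
    have h7 : (n : ℝ) < p * (((n / p : ℕ) : ℝ) + 1) := by exact_mod_cast h6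
    rw [sub_le_iff_le_add, div_le_iff₀ (by positivity)]
    linarith
  have h6 : (bad.card : ℝ) ≤ n / (2 * p) := by
    have : 2 * (lam / (4 * p)) * n = lam * (n / (2 * p)) := by
      field_simp
      ring
    rw [this] at h1
    exact le_of_mul_le_mul_left h1 hl
  have h7 : (4 * p : ℝ) ≤ n := by exact_mod_cast hn
  have h8 : (1 : ℝ) ≤ n / (4 * p) := by
    rw [le_div_iff₀ (by positivity)]
    linarith
  have h9 : (n : ℝ) / p = 4 * (n / (4 * p)) := by field_simp
  have h10 : (n : ℝ) / (2 * p) = 2 * (n / (4 * p)) := by field_simp; ring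
  have h11 : 1 / (4 * p) * (n : ℝ) = n / (4 * p) := by ring
  linarith

lemma FR_residual : FR ∈ residual X := by
  let G : ℕ → Set X := fun m => ⋃ (y : V) (p : ℕ) (_ : 0 < p) (_ : (T ^ p) y = y),
    Metric.ball (y : X) ((1 / ((m : ℝ) + 1)) / (4 * p))
  have hG : ∀ m, G m ∈ residual X := by
    intro m
    refine residual_of_dense_open ?_ ?_
    · simp only [G]
      exact isOpen_iUnion fun y => isOpen_iUnion fun p => isOpen_iUnion fun _ =>
        isOpen_iUnion fun _ => Metric.isOpen_ball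
    · rw [Metric.dense_iff]
      intro x r hr
      obtain ⟨w, hw⟩ := Completion.denseRange_coe.mem_nhds (Metric.ball_mem_nhds x (half_pos hr))
      obtain ⟨y, hy1, p, hp, hy2⟩ := dense_per w (r / 4) (by positivity)
      refine ⟨(y : X), ?_, ?_⟩
      · rw [mem_ball_iff_norm] at hw ⊢
        have h1 : ‖(w : X) - (y : X)‖ ≤ r / 4 := by
          rw [← Completion.coe_sub, Completion.norm_coe]
          exact hy1
        have h2 : (y : X) - x = ((w : X) - x) - ((w : X) - (y : X)) := by abel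
        rw [h2]
        have := norm_sub_le ((w : X) - x) ((w : X) - (y : X))
        linarith
      · simp only [G, Set.mem_iUnion]
        refine ⟨y, p, hp, hy2, Metric.mem_ball_self ?_⟩
        have : (0 : ℝ) < p := by exact_mod_cast hp
        positivity
  refine Filter.mem_of_superset (countable_iInter_mem.2 hG) ?_
  intro x hx U hU
  obtain ⟨ε, hε, hεU⟩ := Metric.mem_nhds_iff.1 hU
  obtain ⟨m, hm⟩ := exists_nat_one_div_lt (show 0 < ε / 3 by positivity)
  have hxm := Set.mem_iInter.1 hx m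
  simp only [G, Set.mem_iUnion] at hxm
  obtain ⟨y, p, hp, hy, hxy⟩ := hxm
  have hp0 : (0 : ℝ) < p := by exact_mod_cast hp
  refine ⟨1 / (4 * p), by positivity, 4 * p, fun n hn => ?_⟩
  refine (near_per y p hp hy _ (by positivity) x (mem_ball_iff_norm.1 hxy) n hn).trans ?_
  refine Nat.cast_le.2 (Set.ncard_le_ncard (fun k hk => ⟨hk.1, hεU ?_⟩) ?_)
  · exact Metric.ball_subset_ball (by linarith) hk.2
  · exact (Set.finite_lt_nat n).subset fun k hk => hk.1

lemma e0_not : (e0 : X) ∉ FR := by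
  intro h
  have hn : 0 < ‖(e0 : X)‖ := by
    rw [Completion.norm_coe]
    exact norm_pos_iff.2 e0_ne
  obtain ⟨δ, hδ, N, hN⟩ := h _ (Metric.ball_mem_nhds _ hn)
  obtain ⟨n, hn1⟩ := exists_nat_gt (max (N : ℝ) (1 / δ))
  have h1 : N ≤ n := by
    have : (N : ℝ) < n := lt_of_le_of_lt (le_max_left _ _) hn1
    exact_mod_cast this.le
  have h2 : 1 / δ < n := lt_of_le_of_lt (le_max_right _ _) hn1
  have h3 := hN n h1
  have h4 : {k : ℕ | k < n ∧ (S ^ k) (e0 : X) ∈ Metric.ball (e0 : X) ‖(e0 : X)‖} ⊆ {0} := by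
    rintro k ⟨-, hk⟩
    rcases k with _ | k
    · rfl
    · exfalso
      rw [S_pow_coe, pow_succ, mul_apply_eq_comp, T_e0, map_zero, Completion.coe_zero,
        mem_ball_iff_norm] at hk
      simp at hk
  have h5 := Set.ncard_le_ncard h4 (Set.finite_singleton 0)
  rw [Set.ncard_singleton] at h5
  have h6 : ((Set.ncard {k : ℕ | k < n ∧ (S ^ k) (e0 : X) ∈ Metric.ball (e0 : X) ‖(e0 : X)‖} : ℕ)
      : ℝ) ≤ 1 := by exact_mod_cast h5
  rw [div_lt_iff₀ hδ] at h2
  nlinarith

theorem main : FR ≠ Set.univ ∧ ¬ IsMeagre FR :=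
  ⟨fun h => e0_not (h ▸ Set.mem_univ _), not_isMeagre_of_mem_residual FR_residual⟩

end Pool.Agent.H834Z.FRec
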