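import Mathlib

/-!
Algebra of one variable difference quotients.
-/

set_option autoImplicit false

open Polynomial
open scoped TensorProduct

noncomputable section
namespace Pool.Agent.H834Z.Fish

theorem poly_ind {P : ℂ[X] → Prop} (hC : ∀ c, P (C c)) (hadd : ∀ f g, P f → P g → P (f + g))
    (hX : ∀ f, P f → P (X * f)) (f : ℂ[X]) : P f := by
  induction f using Polynomial.induction_on with
  | C a => exact hC a
  | add f g hf hg => exact hadd f g hf hg
  | monomial n a h =>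
    have : C a * X ^ (n + 1) = X * (C a * X ^ n) := by ring
    rw [this]
    exact hX _ h

/-- values of `η` on monomials -/
def etaM (τ : ℂ[X] →ₗ[ℂ] ℂ) : ℕ → ℂ[X]
  | 0 => 0
  | k + 1 => C (τ (X ^ k)) + X * etaM τ k

/-- `η = (id ⊗ τ) ∂` -/
def eta (τ : ℂ[X] →ₗ[ℂ] ℂ) : ℂ[X] →ₗ[ℂ] ℂ[X] := (basisMonomials ℂ).constr ℂ (etaM τ)

lemma eta_pow (τ : ℂ[X] →ₗ[ℂ] ℂ) (k : ℕ) : eta τ (X ^ k) = etaM τ k := by
  have h := (basisMonomials ℂ).constr_basis ℂ (etaM τ) k
  rw [coe_basisMonomials] at h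
  rw [X_pow_eq_monomial]
  exact h

lemma eta_C (τ : ℂ[X] →ₗ[ℂ] ℂ) (c : ℂ) : eta τ (C c) = 0 := by
  have : (C c : ℂ[X]) = c • X ^ 0 := by simp [smul_eq_C_mul]
  rw [this, map_smul, eta_pow]
  simp [etaM]

lemma eta_one (τ : ℂ[X] →ₗ[ℂ] ℂ) : eta τ 1 = 0 := by
  simpa using eta_C τ 1

lemma eta_X_mul (τ : ℂ[X] →ₗ[ℂ] ℂ) (f : ℂ[X]) : eta τ (X * f) = C (τ f) + X * eta τ f := by
  induction f using Polynomial.induction_on' with
  | add f g hf hg =>
    rw [mul_add, map_add, hf, hg, map_add, map_add, map_add]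
    ring
  | monomial n a =>
    have h1 : (monomial n a : ℂ[X]) = a • X ^ n := by
      rw [smul_eq_C_mul, C_mul_X_pow_eq_monomial]
    have h2 : X * (monomial n a : ℂ[X]) = a • X ^ (n + 1) := by
      rw [h1, mul_smul_comm, pow_succ']
    rw [h2, h1, (eta τ).map_smul, (eta τ).map_smul, τ.map_smul, eta_pow, eta_pow, etaM]
    simp only [smul_eq_C_mul, smul_eq_mul, map_mul]
    ring

lemma eta_C_mul (τ : ℂ[X] →ₗ[ℂ] ℂ) (c : ℂ) (f : ℂ[X]) : eta τ (C c * f) = C c * eta τ f := by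
  rw [← smul_eq_C_mul, map_smul, smul_eq_C_mul]

lemma tau_C_mul (τ : ℂ[X] →ₗ[ℂ] ℂ) (c : ℂ) (f : ℂ[X]) : τ (C c * f) = c * τ f := by
  rw [← smul_eq_C_mul, map_smul, smul_eq_mul]

/-- the basic identity -/
theorem eta_identity (τ : ℂ[X] →ₗ[ℂ] ℂ) (f : ℂ[X]) : ∀ g : ℂ[X],
    τ (eta τ (g * eta τ f)) + τ (eta τ (f * eta τ g)) =
      τ (eta τ (eta τ (f * g))) + τ (eta τ f * eta τ g) := by
  induction f using poly_ind with
  | hC c =>
    intro g
    simp only [eta_C, mul_zero, map_zero, zero_add, zero_mul, add_zero, eta_C_mul]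
  | hadd f f' hf hf' =>
    intro g
    have h1 := hf g
    have h2 := hf' g
    simp only [map_add, mul_add, add_mul] at h1 h2 ⊢
    linear_combination h1 + h2
  | hX f hf =>
    intro g
    have h1 := hf (X * g)
    have e1 : g * eta τ (X * f) = C (τ f) * g + X * g * eta τ f := by
      rw [eta_X_mul]; ring
    have e2 : f * eta τ (X * g) = C (τ g) * f + X * f * eta τ g := by
      rw [eta_X_mul]; ring
    have e3 : f * (X * g) = X * f * g := by ring
    have e4 : eta τ (X * f) * eta τ g = C (τ f) * eta τ g + X * (eta τ f * eta τ g) := by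
      rw [eta_X_mul]; ring
    have e5 : eta τ f * eta τ (X * g) = C (τ g) * eta τ f + X * (eta τ f * eta τ g) := by
      rw [eta_X_mul]; ring
    rw [e2, e3, e5] at h1
    rw [e1, e4]
    simp only [map_add, eta_C_mul, tau_C_mul] at h1 ⊢
    linear_combination h1

/-- conjugation of the coefficients -/
def cj : ℂ[X] →+* ℂ[X] := mapRingHom (starRingEnd ℂ)

lemma cj_C (c : ℂ) : cj (C c) = C (starRingEnd ℂ c) := by simp [cj]
lemma cj_X : cj X = X := by simp [cj]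

lemma eta_cj (τ : ℂ[X] →ₗ[ℂ] ℂ) (hτ : ∀ f, τ (cj f) = starRingEnd ℂ (τ f)) (f : ℂ[X]) :
    eta τ (cj f) = cj (eta τ f) := by
  induction f using poly_ind with
  | hC c => rw [cj_C, eta_C, eta_C, map_zero]
  | hadd f g hf hg => rw [map_add, map_add, hf, hg, map_add, map_add]
  | hX f hf => rw [map_mul, cj_X, eta_X_mul, eta_X_mul, map_add, map_mul, cj_C, cj_X, hf, hτ]

/-- values of the difference quotient on monomials -/
def delM : ℕ → ℂ[X] ⊗[ℂ] ℂ[X]
  | 0 => 0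
  | k + 1 => (1 : ℂ[X]) ⊗ₜ[ℂ] (X ^ k : ℂ[X]) + ((X : ℂ[X]) ⊗ₜ[ℂ] (1 : ℂ[X])) * delM k

/-- the difference quotient -/
def del : ℂ[X] →ₗ[ℂ] ℂ[X] ⊗[ℂ] ℂ[X] := (basisMonomials ℂ).constr ℂ delM

lemma del_pow (k : ℕ) : del (X ^ k) = delM k := by
  have h := (basisMonomials ℂ).constr_basis ℂ delM k
  rw [coe_basisMonomials] at h
  rw [X_pow_eq_monomial]
  exact h

lemma del_X_mul (f : ℂ[X]) :
    del (X * f) = (1 : ℂ[X]) ⊗ₜ[ℂ] f + ((X : ℂ[X]) ⊗ₜ[ℂ] (1 : ℂ[X])) * del f := by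
  induction f using Polynomial.induction_on' with
  | add f g hf hg =>
    rw [mul_add, map_add, hf, hg, map_add, TensorProduct.tmul_add]
    ring
  | monomial n a =>
    have h1 : (monomial n a : ℂ[X]) = a • X ^ n := by
      rw [smul_eq_C_mul, C_mul_X_pow_eq_monomial]
    have h2 : X * (monomial n a : ℂ[X]) = a • X ^ (n + 1) := by
      rw [h1, mul_smul_comm, pow_succ']
    rw [h2, h1, map_smul, map_smul, del_pow, del_pow, delM, smul_add, TensorProduct.tmul_smul,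
      mul_smul_comm]

/-- the difference quotient of the powers of `1 + c X` -/
lemma del_z_pow (c : ℂ) (n : ℕ) :
    del ((1 + c • X) ^ n) = c • ∑ j ∈ Finset.range n,
      ((1 + c • X : ℂ[X]) ^ j) ⊗ₜ[ℂ] ((1 + c • X : ℂ[X]) ^ (n - 1 - j)) := by
  induction n with
  | zero =>
    have := del_pow 0
    simpa [delM] using this
  | succ n ih =>
    have e1 : (1 + c • X : ℂ[X]) ^ (n + 1) = (1 + c • X) ^ n + c • (X * (1 + c • X) ^ n) := by
      rw [pow_succ', add_mul, one_mul, smul_mul_assoc]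
    rw [e1, map_add, map_smul, del_X_mul, ih, Finset.sum_range_succ']
    have e2 : ∀ j ∈ Finset.range n,
        ((1 + c • X : ℂ[X]) ^ (j + 1)) ⊗ₜ[ℂ] ((1 + c • X : ℂ[X]) ^ (n + 1 - 1 - (j + 1))) =
        ((1 + c • X : ℂ[X]) ^ j) ⊗ₜ[ℂ] ((1 + c • X : ℂ[X]) ^ (n - 1 - j)) +
        c • (((X : ℂ[X]) ⊗ₜ[ℂ] (1 : ℂ[X])) *
          ((1 + c • X : ℂ[X]) ^ j) ⊗ₜ[ℂ] ((1 + c • X : ℂ[X]) ^ (n - 1 - j))) := by
      intro j _
      have e3 : n + 1 - 1 - (j + 1) = n - 1 - j := by omega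
      rw [e3, Algebra.TensorProduct.tmul_mul_tmul, one_mul, TensorProduct.smul_tmul',
        ← TensorProduct.add_tmul, pow_succ', add_mul, one_mul, smul_mul_assoc]
    rw [Finset.sum_congr rfl e2, Finset.sum_add_distrib, ← Finset.smul_sum, ← Finset.mul_sum]
    simp only [pow_zero, Nat.add_sub_cancel, Nat.sub_zero, smul_add, mul_smul_comm]
    abel

end Pool.Agent.H834Z.Fish
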