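import Mathlib

/-!
Free difference quotients, finite free Fisher information and the heat semigroup `exp(-tΔ)`.

A tracial von Neumann algebra `(N, τ)` is taken in its standard form: `N` acts on the Hilbert space
`H = L²(N, τ)`, the vector `Ω` is the class of `1`, `τ(a) = ⟪Ω, a Ω⟫`, and `y ∈ N` is the vector `y Ω`
of `L²(N, τ)`, so that `‖y‖₂ = ‖y Ω‖`.
-/

set_option autoImplicit false

open scoped TensorProduct InnerProductSpace

noncomputable section
namespace Pool.Agent.H834Z.Fish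

variable {H : Type*} [NormedAddCommGroup H] [InnerProductSpace ℂ H] [CompleteSpace H] {m : ℕ}

/-- `N` acts on `H = L²(N, τ)`: `Ω` is a cyclic unit vector whose vector state `τ` is a trace on
`N`. -/
def IsStandardForm (N : VonNeumannAlgebra H) (Ω : H) : Prop :=
  ‖Ω‖ = 1 ∧ Dense {v : H | ∃ a ∈ N, v = a Ω} ∧
    ∀ a ∈ N, ∀ b ∈ N, ⟪Ω, (a * b) Ω⟫_ℂ = ⟪Ω, (b * a) Ω⟫_ℂ

/-- `N = W*(x_1, …, x_m)`: the smallest von Neumann algebra that contains the `x i`. -/
def IsGeneratedBy (N : VonNeumannAlgebra H) (x : Fin m → H →L[ℂ] H) : Prop :=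
  (∀ i, x i ∈ N) ∧ ∀ N' : VonNeumannAlgebra H, (∀ i, x i ∈ N') → N ≤ N'

/-- The Hilbert space tensor product of `H` with itself. -/
abbrev HT (H : Type*) [NormedAddCommGroup H] [InnerProductSpace ℂ H] : Type _ :=
  UniformSpace.Completion (H ⊗[ℂ] H)

/-- The elementary tensor `u ⊗ v`. -/
def ten (u v : H) : HT H := ((u ⊗ₜ[ℂ] v : H ⊗[ℂ] H) : UniformSpace.Completion (H ⊗[ℂ] H))

/-- The monomial `x_{w_1} ⋯ x_{w_k}` of the word `w`. -/
def word (x : Fin m → H →L[ℂ] H) (w : List (Fin m)) : H →L[ℂ] H := (w.map x).prod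

/-- The free difference quotient `∂_i` of the monomial of `w`: the sum of `u ⊗ v` over all ways to
write `w = u i v`. -/
def dq (x : Fin m → H →L[ℂ] H) (Ω : H) (i : Fin m) (w : List (Fin m)) : HT H :=
  ∑ k ∈ Finset.range w.length,
    if w[k]? = some i then ten (word x (w.take k) Ω) (word x (w.drop (k + 1)) Ω) else 0

/-- The graph of `∂_i` on the polynomials: all pairs `(p Ω, ∂_i p)`. -/
def partialGraph (x : Fin m → H →L[ℂ] H) (Ω : H) (i : Fin m) : Submodule ℂ (H × HT H) :=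
  Submodule.span ℂ (Set.range fun w : List (Fin m) => (word x w Ω, dq x Ω i w))

/-- Finite free Fisher information: `1 ⊗ 1` is in the domain of every `∂_i*`. -/
def FiniteFisher (x : Fin m → H →L[ℂ] H) (Ω : H) : Prop :=
  ∀ i, ∃ J : H, ∀ p ∈ partialGraph x Ω i, ⟪J, p.1⟫_ℂ = ⟪ten Ω Ω, p.2⟫_ℂ

/-- The graph of the closure of `(∂_1, …, ∂_m)` defined on the polynomials. -/
def minGraph (x : Fin m → H →L[ℂ] H) (Ω : H) : Set (H × (Fin m → HT H)) :=
  closure (Submodule.span ℂ (Set.range fun w : List (Fin m) =>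
    ((word x w Ω, fun i => dq x Ω i w) : H × (Fin m → HT H))) : Set (H × (Fin m → HT H)))

/-- The graph of the tuple of the closures of the `∂_i`, on the intersection of their domains. -/
def maxGraph (x : Fin m → H →L[ℂ] H) (Ω : H) : Set (H × (Fin m → HT H)) :=
  {p | ∀ i, (p.1, p.2 i) ∈ closure (partialGraph x Ω i : Set (H × HT H))}

/-- For the operator `T : H → (H ⊗ H)^m` with graph `G`, `R = (1 + T* T)⁻¹`: for every `ξ` the
vector `u = R ξ` is in the domain of `T` and `⟪v, ξ⟫ = ⟪v, u⟫ + ⟪T v, T u⟫` for all `v` in the domain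
of `T`, that is, `T u` is in the domain of `T*` and `u + T* T u = ξ`. -/
def IsResolvent (G : Submodule ℂ (H × (Fin m → HT H))) (R : H →L[ℂ] H) : Prop :=
  ∀ ξ : H, ∃ η : Fin m → HT H, (R ξ, η) ∈ G ∧
    ∀ q ∈ G, ⟪q.1, ξ⟫_ℂ = ⟪q.1, R ξ⟫_ℂ + ∑ i, ⟪q.2 i, η i⟫_ℂ

/-- The function of `r = 1/(1+λ)` that equals `exp(-tλ)`, with its limit `0` at `r = 0`. -/
def heatFun (t r : ℝ) : ℝ := if 0 < r then Real.exp (-t * (1 / r - 1)) else 0

/-- `exp(-tΔ)`, by the continuous functional calculus of `R = (1 + Δ)⁻¹`. -/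
def heat (R : H →L[ℂ] H) (t : ℝ) : H →L[ℂ] H := cfc (heatFun t) R

omit [CompleteSpace H] in
/-- `minGraph` is itself a closed subspace between `minGraph` and `maxGraph`. -/
theorem exists_graph (x : Fin m → H →L[ℂ] H) (Ω : H) :
    ∃ G : Submodule ℂ (H × (Fin m → HT H)), IsClosed (G : Set (H × (Fin m → HT H))) ∧
      (G : Set (H × (Fin m → HT H))) = minGraph x Ω ∧
      (G : Set (H × (Fin m → HT H))) ⊆ maxGraph x Ω := by
  refine ⟨Submodule.topologicalClosure _, Submodule.isClosed_topologicalClosure _, rfl, ?_⟩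
  intro p hp i
  have hc : Continuous fun q : H × (Fin m → HT H) => (q.1, q.2 i) := by fun_prop
  refine map_mem_closure (f := fun q : H × (Fin m → HT H) => (q.1, q.2 i)) hc hp fun q hq => ?_
  induction hq using Submodule.span_induction with
  | mem q hq =>
    obtain ⟨w, rfl⟩ := hq
    exact Submodule.subset_span ⟨w, rfl⟩
  | zero => exact (partialGraph x Ω i).zero_mem
  | add q r _ _ hq hr => exact (partialGraph x Ω i).add_mem hq hr
  | smul c q _ hq => exact (partialGraph x Ω i).smul_mem c hq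

end Pool.Agent.H834Z.Fish
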