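import Pool.Agent.H834Z.FishOp

/-!
Estimates for the powers of `1 + i e Y`.
-/

set_option autoImplicit false

open Polynomial
open scoped TensorProduct InnerProductSpace

noncomputable section
namespace Pool.Agent.H834Z.Fish

variable {H : Type*} [NormedAddCommGroup H] [InnerProductSpace ℂ H] [CompleteSpace H] {m : ℕ}

/-- the polynomial `1 + i e X` -/
def zp (e : ℝ) : ℂ[X] := 1 + (Complex.I * e) • X

/-- the polynomial `1 + e² X²` -/
def qp (e : ℝ) : ℂ[X] := 1 + ((e : ℂ) ^ 2) • (X * X)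

lemma cj_zp (e : ℝ) : cj (zp e) = zp (-e) := by
  unfold zp
  rw [smul_eq_C_mul, smul_eq_C_mul, map_add, map_one, map_mul, cj_C, cj_X]
  simp

lemma zp_mul (e : ℝ) : zp (-e) * zp e = qp e := by
  unfold zp qp
  simp only [smul_eq_C_mul]
  have h : C (Complex.I * ((-e : ℝ) : ℂ)) = - C (Complex.I * (e : ℂ)) := by
    rw [← map_neg]; congr 1; push_cast; ring
  have h2 : C ((e : ℂ) ^ 2) = - (C (Complex.I * (e : ℂ)) * C (Complex.I * (e : ℂ))) := by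
    rw [← map_mul, ← map_neg]; congr 1
    linear_combination (e : ℂ) ^ 2 * Complex.I_mul_I
  rw [h, h2]
  ring

lemma cj_pow_mul (e : ℝ) (j : ℕ) : cj (zp e ^ j) * zp e ^ j = qp e ^ j := by
  rw [map_pow, cj_zp, ← mul_pow, zp_mul]

omit [CompleteSpace H] in
lemma norm_tr_le {Ω : H} (hΩ : ‖Ω‖ = 1) (a : H →L[ℂ] H) : ‖tr Ω a‖ ≤ ‖a‖ := by
  rw [tr_apply]
  refine (norm_inner_le_norm _ _).trans ?_
  have := a.le_opNorm Ω
  rw [hΩ] at this ⊢
  linarith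

omit [CompleteSpace H] in
lemma norm_one_add_pow_sub (W : H →L[ℂ] H) (u : ℝ) (hW : ‖W‖ ≤ u) (j : ℕ) :
    ‖(1 + W) ^ j - 1‖ ≤ (1 + u) ^ j - 1 := by
  have h1 : ‖(1 : H →L[ℂ] H)‖ ≤ 1 := ContinuousLinearMap.norm_id_le
  have hu : 0 ≤ u := (norm_nonneg _).trans hW
  induction j with
  | zero => simp
  | succ j ih =>
    have e : (1 + W) ^ (j + 1) - 1 = (1 + W) * ((1 + W) ^ j - 1) + W := by
      rw [pow_succ', mul_sub, mul_one]; abel
    have h2 : ‖1 + W‖ ≤ 1 + u := (norm_add_le _ _).trans (add_le_add h1 hW)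
    rw [e]
    refine (norm_add_le _ _).trans ?_
    have h3 : ‖(1 + W) * ((1 + W) ^ j - 1)‖ ≤ (1 + u) * ((1 + u) ^ j - 1) :=
      (norm_mul_le _ _).trans (mul_le_mul h2 ih (norm_nonneg _) (by linarith))
    rw [pow_succ']
    linarith

omit [CompleteSpace H] in
lemma aeval_qp (Y : H →L[ℂ] H) (e : ℝ) : aeval Y (qp e) = 1 + ((e : ℂ) ^ 2) • (Y * Y) := by
  simp [qp]

omit [CompleteSpace H] in
lemma aeval_zp (Y : H →L[ℂ] H) (e : ℝ) : aeval Y (zp e) = 1 + (Complex.I * e) • Y := by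
  simp [zp]

omit [CompleteSpace H] in
lemma norm_qp_sub {Y : H →L[ℂ] H} {R : ℝ} (hR : ‖Y‖ ≤ R) (e : ℝ) (j : ℕ) :
    ‖aeval Y (qp e ^ j) - 1‖ ≤ (1 + e ^ 2 * R ^ 2) ^ j - 1 := by
  rw [map_pow, aeval_qp]
  refine norm_one_add_pow_sub _ _ ?_ j
  rw [norm_smul, norm_pow, Complex.norm_real, Real.norm_eq_abs, sq_abs]
  refine mul_le_mul_of_nonneg_left ((norm_mul_le _ _).trans ?_) (sq_nonneg _)
  have := norm_nonneg Y
  nlinarith

omit [CompleteSpace H] in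
lemma norm_qp {Y : H →L[ℂ] H} {R : ℝ} (hR : ‖Y‖ ≤ R) (e : ℝ) (j : ℕ) :
    ‖aeval Y (qp e ^ j)‖ ≤ (1 + e ^ 2 * R ^ 2) ^ j := by
  have h1 : ‖(1 : H →L[ℂ] H)‖ ≤ 1 := ContinuousLinearMap.norm_id_le
  have h2 := norm_qp_sub hR e j
  have h3 := norm_add_le (aeval Y (qp e ^ j) - 1) 1
  rw [sub_add_cancel] at h3
  linarith

lemma norm_zp {Y : H →L[ℂ] H} (hY : IsSelfAdjoint Y) {R : ℝ} (hR : ‖Y‖ ≤ R) (e : ℝ) (j : ℕ)
    (hj : (1 + e ^ 2 * R ^ 2) ^ j ≤ 2) : ‖aeval Y (zp e ^ j)‖ ≤ 2 := by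
  have h1 := CStarRing.norm_star_mul_self (x := aeval Y (zp e ^ j))
  rw [star_aeval hY, ← map_mul, cj_pow_mul] at h1
  have h2 := norm_qp hR e j
  have h3 := norm_nonneg (aeval Y (zp e ^ j))
  nlinarith

omit [CompleteSpace H] in
lemma norm_eta_qp {Ω : H} (hΩ : ‖Ω‖ = 1) {Y : H →L[ℂ] H} {R : ℝ} (hR : ‖Y‖ ≤ R) (e : ℝ) (j : ℕ) :
    ‖aeval Y (eta (tp Ω Y) (qp e ^ j))‖ ≤ 2 * j * e ^ 2 * R * (1 + e ^ 2 * R ^ 2) ^ j := by
  have h1 : ‖(1 : H →L[ℂ] H)‖ ≤ 1 := ContinuousLinearMap.norm_id_le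
  have hR0 : 0 ≤ R := (norm_nonneg _).trans hR
  induction j with
  | zero => simp [eta_one]
  | succ j ih =>
    set p := qp e ^ j with hp
    set κ := (1 + e ^ 2 * R ^ 2) ^ j with hκ
    have hκ0 : 0 ≤ κ := by positivity
    have hpn : ‖aeval Y p‖ ≤ κ := norm_qp hR e j
    have e1 : qp e ^ (j + 1) = p + ((e : ℂ) ^ 2) • (X * (X * p)) := by
      rw [pow_succ', ← hp, qp, add_mul, one_mul, smul_mul_assoc, mul_assoc]
    rw [e1, map_add, map_smul, map_add, map_smul, aeval_eta_X_mul, aeval_eta_X_mul, aeval_X_mul]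
    set A := aeval Y (eta (tp Ω Y) p) with hA
    have t1 : ‖tr Ω (Y * aeval Y p) • (1 : H →L[ℂ] H)‖ ≤ R * κ := by
      rw [norm_smul]
      have h2 := (norm_tr_le hΩ (Y * aeval Y p)).trans
        ((norm_mul_le _ _).trans (mul_le_mul hR hpn (norm_nonneg _) hR0))
      have h3 := norm_nonneg (tr Ω (Y * aeval Y p))
      nlinarith
    have t2 : ‖tr Ω (aeval Y p) • (1 : H →L[ℂ] H)‖ ≤ κ := by
      rw [norm_smul]
      have h2 := (norm_tr_le hΩ (aeval Y p)).trans hpn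
      have h3 := norm_nonneg (tr Ω (aeval Y p))
      nlinarith
    have t3 : ‖Y * A‖ ≤ R * ‖A‖ :=
      (norm_mul_le _ _).trans (mul_le_mul_of_nonneg_right hR (norm_nonneg _))
    have t4 : ‖Y * (tr Ω (aeval Y p) • (1 : H →L[ℂ] H) + Y * A)‖ ≤ R * (κ + R * ‖A‖) :=
      (norm_mul_le _ _).trans (mul_le_mul hR ((norm_add_le _ _).trans (add_le_add t2 t3))
        (norm_nonneg _) hR0)
    have t5 := (norm_add_le _ _).trans (add_le_add t1 t4)
    refine (norm_add_le _ _).trans ?_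
    rw [norm_smul, norm_pow, Complex.norm_real, Real.norm_eq_abs, sq_abs]
    have t6 := mul_le_mul_of_nonneg_left t5 (sq_nonneg e)
    have t7 : (1 + e ^ 2 * R ^ 2) * ‖A‖ ≤ (1 + e ^ 2 * R ^ 2) * (2 * j * e ^ 2 * R * κ) :=
      mul_le_mul_of_nonneg_left ih (by positivity)
    have t8 : 0 ≤ e ^ 2 * R ^ 2 * (e ^ 2 * R * κ) := by positivity
    rw [pow_succ _ j, ← hκ]
    push_cast
    nlinarith

lemma norm_eta_le {N : VonNeumannAlgebra H} {Ω : H} (hN : IsStandardForm N Ω)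
    {x : Fin m → H →L[ℂ] H} (hx : ∀ i, x i ∈ N) (i : Fin m) (hY : IsSelfAdjoint (x i)) (J : H)
    (hJ : ∀ p ∈ partialGraph x Ω i, ⟪J, p.1⟫_ℂ = ⟪ten Ω Ω, p.2⟫_ℂ) (f : ℂ[X])
    (h1 : ‖aeval (x i) f‖ ≤ 2) (h2 : ‖aeval (x i) (eta (tp Ω (x i)) (cj f * f))‖ ≤ 2) :
    ‖aeval (x i) (eta (tp Ω (x i)) f) Ω‖ ≤ 6 * ‖J‖ + 1 := by
  have hid := eta_identity (tp Ω (x i)) f (cj f)
  rw [← conj_poly hN hx i J hJ, ← conj_poly hN hx i J hJ, ← conj_poly hN hx i J hJ,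
    eta_cj _ (tp_cj hY Ω), mul_comm f (cj f), mul_comm (eta (tp Ω (x i)) f) (cj _), tp_apply,
    map_mul (aeval (x i)), map_mul (aeval (x i)), map_mul (aeval (x i)), ← star_aeval hY,
    ← star_aeval hY, ← inner_eq_tr,
    inner_self_eq_norm_sq_to_K] at hid
  set A := aeval (x i) (eta (tp Ω (x i)) f) with hA
  have hAN : A ∈ N := aeval_mem N (hx i) _
  set n := ‖A Ω‖ with hn
  have hn0 : 0 ≤ n := norm_nonneg _
  have hJ0 := norm_nonneg J
  have t1 : ‖⟪J, (star (aeval (x i) f) * A) Ω⟫_ℂ‖ ≤ ‖J‖ * (2 * n) := by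
    refine (norm_inner_le_norm _ _).trans (mul_le_mul_of_nonneg_left ?_ hJ0)
    rw [mul_apply_eq_comp]
    refine (ContinuousLinearMap.le_opNorm _ _).trans ?_
    rw [norm_star]
    exact mul_le_mul_of_nonneg_right h1 hn0
  have t2 : ‖⟪J, (aeval (x i) f * star A) Ω⟫_ℂ‖ ≤ ‖J‖ * (2 * n) := by
    refine (norm_inner_le_norm _ _).trans (mul_le_mul_of_nonneg_left ?_ hJ0)
    rw [mul_apply_eq_comp]
    refine (ContinuousLinearMap.le_opNorm _ _).trans ?_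
    rw [norm_star_apply hN hAN]
    exact mul_le_mul_of_nonneg_right h1 hn0
  have t3 : ‖⟪J, (aeval (x i) (eta (tp Ω (x i)) (cj f * f))) Ω⟫_ℂ‖ ≤ ‖J‖ * 2 := by
    refine (norm_inner_le_norm _ _).trans (mul_le_mul_of_nonneg_left ?_ hJ0)
    refine (ContinuousLinearMap.le_opNorm _ _).trans ?_
    rw [hN.1, mul_one]
    exact h2
  have t4 : n ^ 2 ≤ ‖J‖ * (2 * n) + ‖J‖ * (2 * n) + ‖J‖ * 2 := by
    have e : (((n : ℝ) : ℂ)) ^ 2 = ⟪J, (star (aeval (x i) f) * A) Ω⟫_ℂ +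
        ⟪J, (aeval (x i) f * star A) Ω⟫_ℂ -
        ⟪J, (aeval (x i) (eta (tp Ω (x i)) (cj f * f))) Ω⟫_ℂ := by
      rw [hid]
      simp
    have e2 : ‖(((n : ℝ) : ℂ)) ^ 2‖ = n ^ 2 := by
      rw [norm_pow, Complex.norm_real, Real.norm_eq_abs, sq_abs]
    rw [← e2, e]
    exact (norm_sub_le _ _).trans (add_le_add ((norm_add_le _ _).trans (add_le_add t1 t2)) t3)
  by_contra hc
  push Not at hc
  nlinarith

lemma pairing_le {N : VonNeumannAlgebra H} {Ω : H} (hN : IsStandardForm N Ω)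
    {x : Fin m → H →L[ℂ] H} (hx : ∀ i, x i ∈ N) (i : Fin m) (J : H)
    (hJ : ∀ p ∈ partialGraph x Ω i, ⟪J, p.1⟫_ℂ = ⟪ten Ω Ω, p.2⟫_ℂ) (a b : ℂ[X]) (C0 : ℝ)
    (ha : ‖aeval (x i) a‖ ≤ 2) (hb : ‖aeval (x i) b‖ ≤ 2)
    (ha' : ‖aeval (x i) (eta (tp Ω (x i)) a) Ω‖ ≤ C0)
    (hb' : ‖aeval (x i) (eta (tp Ω (x i)) b) Ω‖ ≤ C0)
    (p : H × HT H) (hp : p ∈ partialGraph x Ω i) :
    ‖⟪ten (star (aeval (x i) a) Ω) (star (aeval (x i) b) Ω), p.2⟫_ℂ‖ ≤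
      (4 * ‖J‖ + 4 * C0) * ‖p.1‖ := by
  obtain ⟨y, hy, hy1, hy2⟩ := voic_graph hN hx i J hJ p hp
  rw [hy2, hy1]
  set A := aeval (x i) a
  set B := aeval (x i) b
  set A' := aeval (x i) (eta (tp Ω (x i)) a)
  set B' := aeval (x i) (eta (tp Ω (x i)) b)
  have hA : A ∈ N := aeval_mem N (hx i) _
  have hB : B ∈ N := aeval_mem N (hx i) _
  have hA' : A' ∈ N := aeval_mem N (hx i) _
  have hB' : B' ∈ N := aeval_mem N (hx i) _
  have hn0 := norm_nonneg (y Ω)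
  have hJ0 := norm_nonneg J
  have hC0 : 0 ≤ C0 := (norm_nonneg _).trans ha'
  have s1 : ‖(y * B) Ω‖ ≤ 2 * ‖y Ω‖ :=
    (norm_mul_right hN hy hB).trans (mul_le_mul_of_nonneg_right hb hn0)
  have s2 : ‖(A * y) Ω‖ ≤ 2 * ‖y Ω‖ := by
    rw [mul_apply_eq_comp]
    exact (A.le_opNorm _).trans (mul_le_mul_of_nonneg_right ha hn0)
  have t1 : ‖⟪J, (A * y * B) Ω⟫_ℂ‖ ≤ ‖J‖ * (2 * (2 * ‖y Ω‖)) := by
    refine (norm_inner_le_norm _ _).trans (mul_le_mul_of_nonneg_left ?_ hJ0)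
    rw [mul_assoc, mul_apply_eq_comp]
    exact (A.le_opNorm _).trans (mul_le_mul ha s1 (norm_nonneg _) (by norm_num))
  have t2 : ‖tr Ω (A' * y * B)‖ ≤ C0 * (2 * ‖y Ω‖) := by
    rw [mul_assoc, ← star_star A', ← inner_eq_tr]
    refine (norm_inner_le_norm _ _).trans ?_
    rw [norm_star_apply hN hA']
    exact mul_le_mul ha' s1 (norm_nonneg _) hC0
  have t3 : ‖tr Ω (A * y * B')‖ ≤ C0 * (2 * ‖y Ω‖) := by
    have : tr Ω (A * y * B') = tr Ω (B' * (A * y)) := hN.2.2 _ (mul_mem hA hy) _ hB'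
    rw [this, ← star_star B', ← inner_eq_tr]
    refine (norm_inner_le_norm _ _).trans ?_
    rw [norm_star_apply hN hB']
    exact mul_le_mul hb' s2 (norm_nonneg _) hC0
  refine ((norm_sub_le _ _).trans (add_le_add ((norm_sub_le _ _).trans (add_le_add t1 t2))
    t3)).trans (le_of_eq ?_)
  ring

lemma re_mul_conj_ge (A B s : ℂ) (δ : ℝ) (hδ : δ ≤ 1) (hA : ‖A - s‖ ≤ 2 * δ)
    (hB : ‖B - s‖ ≤ 2 * δ) (hs : ‖s‖ ≤ 2) :
    ‖s‖ ^ 2 - 12 * δ ≤ (A * starRingEnd ℂ B).re := by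
  have e : A * starRingEnd ℂ B = s * starRingEnd ℂ s + ((A - s) * starRingEnd ℂ s +
      s * starRingEnd ℂ (B - s) + (A - s) * starRingEnd ℂ (B - s)) := by
    rw [map_sub]; ring
  have h0 : 0 ≤ δ := by linarith [norm_nonneg (A - s)]
  have h1 : (s * starRingEnd ℂ s).re = ‖s‖ ^ 2 := by
    rw [Complex.mul_conj, Complex.ofReal_re, Complex.normSq_eq_norm_sq]
  have h2 : ‖(A - s) * starRingEnd ℂ s + s * starRingEnd ℂ (B - s) +
      (A - s) * starRingEnd ℂ (B - s)‖ ≤ 12 * δ := by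
    refine (norm_add_le _ _).trans ((add_le_add (norm_add_le _ _) le_rfl).trans ?_)
    simp only [norm_mul, Complex.norm_conj]
    have := norm_nonneg (A - s)
    have := norm_nonneg (B - s)
    have := norm_nonneg s
    nlinarith
  have h3 := Complex.abs_re_le_norm ((A - s) * starRingEnd ℂ s + s * starRingEnd ℂ (B - s) +
      (A - s) * starRingEnd ℂ (B - s))
  rw [e, Complex.add_re, h1]
  have := neg_abs_le ((A - s) * starRingEnd ℂ s + s * starRingEnd ℂ (B - s) +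
      (A - s) * starRingEnd ℂ (B - s)).re
  linarith

lemma count_ge (n D : ℕ) (hD : D ≤ n) :
    ((n : ℝ) - D) * D / 4 ≤ ∑ j ∈ Finset.range n, ∑ k ∈ Finset.range n,
      (if j ≤ k ∧ k < j + D then (1 / 4 : ℝ) else 0) := by
  have h1 : ∑ j ∈ Finset.range (n - D), ((D : ℝ) / 4) ≤
      ∑ j ∈ Finset.range (n - D), ∑ k ∈ Finset.range n,
        (if j ≤ k ∧ k < j + D then (1 / 4 : ℝ) else 0) := by
    refine Finset.sum_le_sum fun j hj => ?_
    rw [Finset.mem_range] at hj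
    rw [← Finset.sum_filter]
    have : (Finset.range n).filter (fun k => j ≤ k ∧ k < j + D) = Finset.Ico j (j + D) := by
      ext k
      simp only [Finset.mem_filter, Finset.mem_range, Finset.mem_Ico]
      omega
    rw [this, Finset.sum_const, Nat.card_Ico, Nat.add_sub_cancel_left, nsmul_eq_mul]
    linarith
  rw [Finset.sum_const, Finset.card_range, nsmul_eq_mul, Nat.cast_sub hD] at h1
  refine le_trans (le_of_eq (by ring)) (h1.trans ?_)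
  refine Finset.sum_le_sum_of_subset_of_nonneg (Finset.range_subset_range.2 (Nat.sub_le _ _)) ?_
  intro j _ _
  exact Finset.sum_nonneg fun k _ => by split_ifs <;> norm_num

/-- lower bound for the norm of the sum of the tensors -/
lemma norm_g_ge {Ω : H} (hΩ : ‖Ω‖ = 1) {Y : H →L[ℂ] H} (hY : IsSelfAdjoint Y) {R : ℝ}
    (hR : ‖Y‖ ≤ R) (e : ℝ) (he : 0 ≤ e) (n D : ℕ) (hD : D ≤ n) (δ : ℝ) (hδ : δ ≤ 1)
    (h1 : (1 + e ^ 2 * R ^ 2) ^ n - 1 ≤ δ) (h2 : (1 + e * R) ^ D - 1 ≤ 1 / 2) :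
    ((n : ℝ) - D) * D / 4 - 12 * δ * n ^ 2 ≤
      ‖∑ j ∈ Finset.range n, ten (aeval Y (zp e ^ j) Ω) (aeval Y (zp e ^ (n - 1 - j)) Ω)‖ ^ 2 := by
  have hR0 : 0 ≤ R := (norm_nonneg _).trans hR
  have hmono : ∀ j ≤ n, (1 + e ^ 2 * R ^ 2) ^ j - 1 ≤ δ := by
    intro j hj
    have : (1 + e ^ 2 * R ^ 2) ^ j ≤ (1 + e ^ 2 * R ^ 2) ^ n :=
      pow_le_pow_right₀ (by nlinarith [mul_nonneg (sq_nonneg e) (sq_nonneg R)]) hj
    linarith
  have hz : ∀ j ≤ n, ‖aeval Y (zp e ^ j)‖ ≤ 2 := fun j hj =>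
    norm_zp hY hR e j (by linarith [hmono j hj])
  have hα : ∀ j d, j + d ≤ n → ‖⟪aeval Y (zp e ^ j) Ω, aeval Y (zp e ^ (j + d)) Ω⟫_ℂ -
      tr Ω (aeval Y (zp e ^ d))‖ ≤ 2 * δ := by
    intro j d hjd
    rw [inner_eq_tr, star_aeval hY, ← map_mul, pow_add, ← mul_assoc, cj_pow_mul, map_mul,
      ← map_sub]
    refine (norm_tr_le hΩ _).trans ?_
    have e1 : aeval Y (qp e ^ j) * aeval Y (zp e ^ d) - aeval Y (zp e ^ d) =
        (aeval Y (qp e ^ j) - 1) * aeval Y (zp e ^ d) := by rw [sub_mul, one_mul]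
    rw [e1]
    refine (norm_mul_le _ _).trans ?_
    have h3 := (norm_qp_sub hR e j).trans (hmono j (by omega))
    have h4 := hz d (by omega)
    have := norm_nonneg (aeval Y (qp e ^ j) - 1)
    have := norm_nonneg (aeval Y (zp e ^ d))
    nlinarith
  set v : ℕ → HT H := fun j => ten (aeval Y (zp e ^ j) Ω) (aeval Y (zp e ^ (n - 1 - j)) Ω) with hv
  have hF : ∀ j d, j + d < n →
      ‖tr Ω (aeval Y (zp e ^ d))‖ ^ 2 - 12 * δ ≤ (⟪v j, v (j + d)⟫_ℂ).re := by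
    intro j d hjd
    simp only [hv]
    rw [inner_ten]
    have e1 : n - 1 - j = (n - 1 - (j + d)) + d := by omega
    rw [e1, ← inner_conj_symm (aeval Y (zp e ^ (n - 1 - (j + d) + d)) Ω)]
    exact re_mul_conj_ge _ _ _ δ hδ (hα j d hjd.le) (hα _ d (by omega))
      ((norm_tr_le hΩ _).trans (hz d (by omega)))
  have hs : ∀ d < D, (1 / 4 : ℝ) ≤ ‖tr Ω (aeval Y (zp e ^ d))‖ ^ 2 := by
    intro d hd
    have h3 : ‖aeval Y (zp e ^ d) - 1‖ ≤ 1 / 2 := by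
      rw [map_pow, aeval_zp]
      refine (norm_one_add_pow_sub _ (e * R) ?_ d).trans ?_
      · rw [norm_smul, norm_mul, Complex.norm_I, one_mul, Complex.norm_real, Real.norm_eq_abs,
          abs_of_nonneg he]
        exact mul_le_mul_of_nonneg_left hR he
      · have : (1 + e * R) ^ d ≤ (1 + e * R) ^ D :=
          pow_le_pow_right₀ (by nlinarith [mul_nonneg he hR0]) hd.le
        linarith
    have h4 := (norm_tr_le hΩ _).trans h3
    have h5 : tr Ω 1 = 1 := by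
      rw [tr_apply, one_apply_eq_self, inner_self_eq_norm_sq_to_K, hΩ]; simp
    rw [map_sub, h5] at h4
    have h6 := norm_sub_norm_le (1 : ℂ) (tr Ω (aeval Y (zp e ^ d)))
    rw [norm_one, norm_sub_rev] at h6
    have h7 : 1 / 2 ≤ ‖tr Ω (aeval Y (zp e ^ d))‖ := by linarith
    nlinarith
  have hF2 : ∀ j < n, ∀ k < n, (if j ≤ k ∧ k < j + D then (1 / 4 : ℝ) else 0) - 12 * δ ≤
      (⟪v j, v k⟫_ℂ).re := by
    intro j hj k hk
    rcases le_or_gt j k with h | h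
    · obtain ⟨d, rfl⟩ := Nat.exists_eq_add_of_le h
      refine le_trans ?_ (hF j d hk)
      split_ifs with h3
      · linarith [hs d (by omega)]
      · linarith [sq_nonneg ‖tr Ω (aeval Y (zp e ^ d))‖]
    · obtain ⟨d, rfl⟩ := Nat.exists_eq_add_of_le h.le
      rw [if_neg (by omega), ← inner_conj_symm, Complex.conj_re]
      linarith [hF k d hj, sq_nonneg ‖tr Ω (aeval Y (zp e ^ d))‖]
  have h3 : ‖∑ j ∈ Finset.range n, v j‖ ^ 2 =
      ∑ j ∈ Finset.range n, ∑ k ∈ Finset.range n, (⟪v j, v k⟫_ℂ).re := by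
    rw [← inner_self_eq_norm_sq (𝕜 := ℂ), sum_inner]
    simp only [inner_sum, map_sum]
    rfl
  rw [h3]
  have h4 : ∑ j ∈ Finset.range n, ∑ k ∈ Finset.range n,
      ((if j ≤ k ∧ k < j + D then (1 / 4 : ℝ) else 0) - 12 * δ) ≤
      ∑ j ∈ Finset.range n, ∑ k ∈ Finset.range n, (⟪v j, v k⟫_ℂ).re :=
    Finset.sum_le_sum fun j hj => Finset.sum_le_sum fun k hk =>
      hF2 j (Finset.mem_range.1 hj) k (Finset.mem_range.1 hk)
  refine le_trans ?_ h4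
  simp only [Finset.sum_sub_distrib, Finset.sum_const, Finset.card_range, nsmul_eq_mul]
  have := count_ge n D hD
  nlinarith

end Pool.Agent.H834Z.Fish
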