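import Pool.Agent.H834Z.FishEst

/-!
The heat semigroup of the free difference quotients does not converge uniformly on the unit ball.
-/

set_option autoImplicit false

open Polynomial
open scoped TensorProduct InnerProductSpace

noncomputable section
namespace Pool.Agent.H834Z.Fish

variable {H : Type*} [NormedAddCommGroup H] [InnerProductSpace ℂ H] [CompleteSpace H] {m : ℕ}

lemma pow_sub_one_le (u : ℝ) (hu : 0 ≤ u) (k : ℕ) (hk : k * u ≤ 1) :
    (1 + u) ^ k - 1 ≤ 2 * (k * u) := by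
  have h1 : (1 + u) ^ k ≤ Real.exp (k * u) := by
    rw [Real.exp_nat_mul]
    exact pow_le_pow_left₀ (by linarith) (by linarith [Real.add_one_le_exp u]) k
  have h0 : 0 ≤ (k : ℝ) * u := by positivity
  have h2 := Real.abs_exp_sub_one_le (x := k * u) (by rw [abs_of_nonneg h0]; exact hk)
  rw [abs_of_nonneg h0] at h2
  linarith [le_abs_self (Real.exp (k * u) - 1)]

lemma resolvent_sa {G : Submodule ℂ (H × (Fin m → HT H))} {R : H →L[ℂ] H}
    (hR : IsResolvent G R) : IsSelfAdjoint R := by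
  rw [ContinuousLinearMap.isSelfAdjoint_iff_isSymmetric]
  intro u v
  obtain ⟨η, h1, h2⟩ := hR u
  obtain ⟨ζ, h3, h4⟩ := hR v
  have h5 := h4 _ h1
  have h6 := congrArg (starRingEnd ℂ) (h2 _ h3)
  simp only [map_add, map_sum, inner_conj_symm] at h5 h6
  exact h5.trans h6.symm

omit [CompleteSpace H] in
lemma resolvent_graph {G : Submodule ℂ (H × (Fin m → HT H))} {R : H →L[ℂ] H}
    (hR : IsResolvent G R) (ξ : H) : ∃ p ∈ G, p.1 = R ξ ∧ ∀ i, ‖p.2 i‖ ≤ ‖ξ‖ := by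
  obtain ⟨η, h1, h2⟩ := hR ξ
  refine ⟨_, h1, rfl, fun i => ?_⟩
  have h3 := congrArg (RCLike.re (K := ℂ)) (h2 _ h1)
  simp only [map_add, map_sum, inner_self_eq_norm_sq] at h3
  have h4 : RCLike.re ⟪R ξ, ξ⟫_ℂ ≤ ‖R ξ‖ * ‖ξ‖ := re_inner_le_norm _ _
  have h5 : ‖η i‖ ^ 2 ≤ ∑ j, ‖η j‖ ^ 2 :=
    Finset.single_le_sum (f := fun j => ‖η j‖ ^ 2) (fun _ _ => sq_nonneg _) (Finset.mem_univ i)
  refine (sq_le_sq₀ (norm_nonneg _) (norm_nonneg _)).1 ?_
  nlinarith [sq_nonneg (‖R ξ‖ - ‖ξ‖), sq_nonneg ‖R ξ‖, sq_nonneg ‖ξ‖]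

omit [CompleteSpace H] in
lemma resolvent_unique {G : Submodule ℂ (H × (Fin m → HT H))} {R R' : H →L[ℂ] H}
    (hR : IsResolvent G R) (hR' : IsResolvent G R') : R' = R := by
  ext ξ
  obtain ⟨η, h1, h2⟩ := hR ξ
  obtain ⟨ζ, h3, h4⟩ := hR' ξ
  have h5 := h2 _ (G.sub_mem h3 h1)
  have h6 := h4 _ (G.sub_mem h3 h1)
  have h7 : ⟪R' ξ - R ξ, R' ξ - R ξ⟫_ℂ + ∑ i, ⟪ζ i - η i, ζ i - η i⟫_ℂ = 0 := by
    simp only [Prod.fst_sub, Prod.snd_sub, Pi.sub_apply] at h5 h6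
    simp only [inner_sub_right, Finset.sum_sub_distrib]
    linear_combination h5 - h6
  have h8 := congrArg (RCLike.re (K := ℂ)) h7
  simp only [map_add, map_sum, inner_self_eq_norm_sq, map_zero] at h8
  have h9 : 0 ≤ ∑ i, ‖ζ i - η i‖ ^ 2 := Finset.sum_nonneg fun _ _ => sq_nonneg _
  have h10 : ‖R' ξ - R ξ‖ ^ 2 = 0 := le_antisymm (by linarith) (sq_nonneg _)
  exact sub_eq_zero.1 (norm_eq_zero.1 (pow_eq_zero_iff two_ne_zero |>.1 h10))

lemma resolvent_exists (G : Submodule ℂ (H × (Fin m → HT H)))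
    (hG : IsClosed (G : Set (H × (Fin m → HT H)))) : ∃ R : H →L[ℂ] H, IsResolvent G R := by
  let E : WithLp 2 (H × PiLp 2 (fun _ : Fin m => HT H)) ≃L[ℂ] H × (Fin m → HT H) :=
    (WithLp.prodContinuousLinearEquiv 2 ℂ H (PiLp 2 fun _ : Fin m => HT H)).trans
      ((ContinuousLinearEquiv.refl ℂ H).prodCongr
        (PiLp.continuousLinearEquiv 2 ℂ fun _ : Fin m => HT H))
  let G' : Submodule ℂ (WithLp 2 (H × PiLp 2 (fun _ : Fin m => HT H))) :=
    G.comap E.toLinearEquiv.toLinearMap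
  have hG' : IsClosed (G' : Set (WithLp 2 (H × PiLp 2 (fun _ : Fin m => HT H)))) :=
    hG.preimage E.continuous
  have : CompleteSpace G' := hG'.completeSpace_coe
  refine ⟨(WithLp.fstL 2 ℂ H (PiLp 2 fun _ : Fin m => HT H)) ∘L G'.starProjection ∘L
    (E.symm : (H × (Fin m → HT H)) →L[ℂ] _) ∘L ContinuousLinearMap.inl ℂ H _, fun ξ => ?_⟩
  refine ⟨(E (G'.starProjection (E.symm (ξ, 0)))).2, G'.starProjection_apply_mem _,
    fun q hq => ?_⟩
  have hq' : E.symm q ∈ G' := by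
    show E (E.symm q) ∈ G
    rw [E.apply_symm_apply]
    exact hq
  have h1 := G'.starProjection_inner_eq_zero (E.symm (ξ, 0)) _ hq'
  rw [inner_eq_zero_symm, inner_sub_right, sub_eq_zero, WithLp.prod_inner_apply,
    WithLp.prod_inner_apply, PiLp.inner_apply, PiLp.inner_apply] at h1
  have h2 : ∑ i, ⟪(E.symm q).ofLp.2 i, (E.symm (ξ, 0)).ofLp.2 i⟫_ℂ = 0 :=
    Finset.sum_eq_zero fun i _ => inner_zero_right _
  rw [h2, add_zero] at h1
  exact h1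

lemma heat_factor {R : H →L[ℂ] H} (hsa : IsSelfAdjoint R) (t : ℝ) (ht : 0 < t) :
    ∃ B : H →L[ℂ] H, heat R t = R * B := by
  let h : ℝ → ℝ := fun r => Real.exp t / t * ((r / t)⁻¹ * expNegInvGlue (r / t))
  have hc : Continuous h := by
    have h1 := expNegInvGlue.continuous_polynomial_eval_inv_mul (X : ℝ[X])
    simp only [eval_X] at h1
    exact continuous_const.mul (h1.comp (continuous_id.div_const t))
  have he : heatFun t = fun r => r * h r := by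
    funext r
    simp only [heatFun, h]
    split_ifs with hr
    · have h2 : ¬ (r / t ≤ 0) := not_le.2 (by positivity)
      simp only [expNegInvGlue, if_neg h2]
      have h3 : -t * (1 / r - 1) = t + -(r / t)⁻¹ := by field_simp; ring
      rw [h3, Real.exp_add]
      field_simp
    · have h2 : r / t ≤ 0 := div_nonpos_of_nonpos_of_nonneg (not_lt.1 hr) ht.le
      rw [expNegInvGlue.zero_of_nonpos h2]
      simp
  refine ⟨cfc h R, ?_⟩
  rw [heat, he, cfc_mul (fun r : ℝ => r) h R, cfc_id' ℝ R]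

lemma params (R b : ℝ) (hR1 : 1 ≤ R) (hb : 0 ≤ b) : ∃ (n D : ℕ) (e δ : ℝ), 0 < e ∧ D ≤ n ∧ 0 < n ∧
    δ ≤ 1 ∧ (1 + e ^ 2 * R ^ 2) ^ n - 1 ≤ δ ∧ (1 + e * R) ^ D - 1 ≤ 1 / 2 ∧
    (n : ℝ) * e ^ 2 * R ≤ 1 / 2 ∧
    ∀ γ d C1 : ℝ, 0 ≤ γ → 0 < C1 → ((n : ℝ) - D) * D / 4 - 12 * δ * n ^ 2 ≤ γ ^ 2 →
      e * γ ^ 2 - γ * (b * 2) ≤ n * C1 * d → 1 / (128 * R * C1) ≤ d := by
  obtain ⟨l, hl⟩ := exists_nat_ge (max 2 (4096 * R ^ 2 * b ^ 2))
  have hl2 : (2 : ℝ) ≤ l := (le_max_left _ _).trans hl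
  have hlB : 4096 * R ^ 2 * b ^ 2 ≤ l := (le_max_right _ _).trans hl
  have hl1 : 1 ≤ l := by
    have : (1 : ℝ) ≤ l := by linarith
    exact_mod_cast this
  set D : ℕ := 24 * l ^ 2 with hD
  set n : ℕ := l * D with hn
  have hDr : (D : ℝ) = 24 * (l : ℝ) ^ 2 := by rw [hD]; push_cast; ring
  have hnr : (n : ℝ) = l * D := by rw [hn]; push_cast; ring
  have hDpos : (0 : ℝ) < D := by rw [hDr]; positivity
  have hlpos : (0 : ℝ) < l := by linarith
  have hnpos : (0 : ℝ) < n := by rw [hnr]; positivity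
  have hDn : D ≤ n := Nat.le_mul_of_pos_left D hl1
  set e : ℝ := 1 / (4 * R * D) with he
  have he0 : 0 < e := by positivity
  have heR : e * R = 1 / (4 * D) := by rw [he]; field_simp
  have hu : (n : ℝ) * (e ^ 2 * R ^ 2) = 1 / (384 * l) := by
    rw [← mul_pow, heR, hnr, hDr]; field_simp; ring
  have hl384 : 1 / (384 * (l : ℝ)) ≤ 1 / 384 := by
    apply one_div_le_one_div_of_le (by norm_num); linarith
  have h1 : (1 + e ^ 2 * R ^ 2) ^ n - 1 ≤ 1 / (192 * l) := by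
    have := pow_sub_one_le (e ^ 2 * R ^ 2) (by positivity) n (by rw [hu]; linarith)
    rw [hu] at this
    refine this.trans (le_of_eq ?_)
    field_simp; ring
  have hδ : 1 / (192 * (l : ℝ)) ≤ 1 := by
    rw [div_le_one (by positivity)]; linarith
  have h2 : (1 + e * R) ^ D - 1 ≤ 1 / 2 := by
    have h3 : (D : ℝ) * (e * R) = 1 / 4 := by rw [heR]; field_simp
    have := pow_sub_one_le (e * R) (by positivity) D (by rw [h3]; norm_num)
    rw [h3] at this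
    linarith
  have hn0 : 0 < n := by exact_mod_cast hnpos
  refine ⟨n, D, e, _, he0, hDn, hn0, hδ, h1, h2, ?_, ?_⟩
  · have h7 : (n : ℝ) * e ^ 2 * R ≤ n * e ^ 2 * R * R :=
      le_mul_of_one_le_right (by positivity) hR1
    have h8 : (n : ℝ) * e ^ 2 * R * R = n * (e ^ 2 * R ^ 2) := by ring
    linarith
  intro γ d C1 hγ hC1 hg h6
  have hg2 : (n : ℝ) * D / 16 ≤ γ ^ 2 := by
    refine le_trans ?_ hg
    have h3 : 12 * (1 / (192 * (l : ℝ))) * (n : ℝ) ^ 2 = n * D / 16 := by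
      rw [hnr]; field_simp; ring
    rw [h3]
    have h4 : 2 * (D : ℝ) ≤ n := by
      rw [hnr]; exact mul_le_mul_of_nonneg_right hl2 hDpos.le
    have h5 := mul_le_mul_of_nonneg_right h4 hDpos.le
    linarith
  have h7 : 4 * b ≤ e * γ := by
    refine (sq_le_sq₀ (by positivity) (by positivity)).1 ?_
    have h8 : e ^ 2 * ((n : ℝ) * D / 16) = l / (256 * R ^ 2) := by
      rw [he, hnr]; field_simp; ring
    have h9 : e ^ 2 * ((n : ℝ) * D / 16) ≤ e ^ 2 * γ ^ 2 :=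
      mul_le_mul_of_nonneg_left hg2 (sq_nonneg _)
    have h10 : 16 * b ^ 2 ≤ l / (256 * R ^ 2) := by
      rw [le_div_iff₀ (by positivity)]
      linarith
    rw [mul_pow, mul_pow]
    linarith
  have h8 : e * ((n : ℝ) * D / 16) = n / (64 * R) := by
    rw [he]; field_simp; ring
  have h9 : e * ((n : ℝ) * D / 16) ≤ e * γ ^ 2 := mul_le_mul_of_nonneg_left hg2 he0.le
  have h10 : γ * (4 * b) ≤ γ * (e * γ) := mul_le_mul_of_nonneg_left h7 hγ
  have h11 : (n : ℝ) / (128 * R) ≤ n * C1 * d := by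
    have : (n : ℝ) / (64 * R) = 2 * (n / (128 * R)) := by field_simp; ring
    linarith
  rw [div_le_iff₀ (by positivity)] at h11 ⊢
  have : (n : ℝ) * 1 ≤ n * (d * (128 * R * C1)) := by linarith
  exact le_of_mul_le_mul_left this hnpos

theorem main {N : VonNeumannAlgebra H} {Ω : H} (hN : IsStandardForm N Ω)
    {x : Fin m → H →L[ℂ] H} (hx : ∀ i, x i ∈ N) (hsa : ∀ i, IsSelfAdjoint (x i)) (i : Fin m)
    (hF : FiniteFisher x Ω) (G : Submodule ℂ (H × (Fin m → HT H)))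
    (hG : (G : Set (H × (Fin m → HT H))) ⊆ maxGraph x Ω) (S : H →L[ℂ] H) (hS : IsResolvent G S) :
    ∃ c : ℝ, 0 < c ∧ ∀ t : ℝ, 0 < t → ∃ y ∈ N, ‖y‖ ≤ 1 ∧ c ≤ ‖heat S t (y Ω) - y Ω‖ := by
  obtain ⟨J, hJ⟩ := hF i
  set Y := x i with hYdef
  have hY : IsSelfAdjoint Y := hsa i
  set R : ℝ := ‖Y‖ + 1 with hRdef
  have hR : ‖Y‖ ≤ R := by linarith
  have hR1 : 1 ≤ R := by linarith [norm_nonneg Y]
  have hJ0 := norm_nonneg J
  set C1 : ℝ := 4 * ‖J‖ + 4 * (6 * ‖J‖ + 1) with hC1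
  have hC1pos : 0 < C1 := by positivity
  refine ⟨1 / (256 * R * C1), by positivity, fun t ht => ?_⟩
  obtain ⟨B, hB⟩ := heat_factor (resolvent_sa hS) t ht
  obtain ⟨n, D, e, δ, he0, hDn, hn0, hδ, h1, h2, hne, hfin⟩ := params R ‖B‖ hR1 (norm_nonneg _)
  have hg := norm_g_ge hN.1 hY hR e he0.le n D hDn _ hδ h1 h2
  set g := ∑ j ∈ Finset.range n, ten (aeval Y (zp e ^ j) Ω) (aeval Y (zp e ^ (n - 1 - j)) Ω)
    with hgdef
  have hκ : ∀ j ≤ n, (1 + e ^ 2 * R ^ 2) ^ j ≤ 2 := by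
    intro j hj
    have : (1 + e ^ 2 * R ^ 2) ^ j ≤ (1 + e ^ 2 * R ^ 2) ^ n :=
      pow_le_pow_right₀ (le_add_of_nonneg_right (by positivity)) hj
    linarith
  have hz : ∀ j ≤ n, ‖aeval Y (zp (-e) ^ j)‖ ≤ 2 := fun j hj =>
    norm_zp hY hR (-e) j (by rw [neg_sq]; exact hκ j hj)
  have hη : ∀ j ≤ n, ‖aeval Y (eta (tp Ω Y) (zp (-e) ^ j)) Ω‖ ≤ 6 * ‖J‖ + 1 := by
    intro j hj
    refine norm_eta_le hN hx i hY J hJ _ (hz j hj) ?_
    rw [cj_pow_mul]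
    refine (norm_eta_qp hN.1 hR (-e) j).trans ?_
    rw [neg_sq]
    have h3 := hκ j hj
    have h4 : (j : ℝ) ≤ n := by exact_mod_cast hj
    have h5 : (j : ℝ) * e ^ 2 * R ≤ 1 / 2 := le_trans (by gcongr) hne
    have h6 : (j : ℝ) * e ^ 2 * R * (1 + e ^ 2 * R ^ 2) ^ j ≤ 1 / 2 * 2 :=
      mul_le_mul h5 h3 (by positivity) (by norm_num)
    linarith
  have hstar : ∀ j, star (aeval Y (zp (-e) ^ j)) = aeval Y (zp e ^ j) := by
    intro j
    rw [star_aeval hY, map_pow cj, cj_zp, neg_neg]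
  have hpair : ∀ p ∈ partialGraph x Ω i, ‖⟪g, p.2⟫_ℂ‖ ≤ n * C1 * ‖p.1‖ := by
    intro p hp
    rw [hgdef, sum_inner]
    refine (norm_sum_le _ _).trans ?_
    have h3 : ∀ j ∈ Finset.range n,
        ‖⟪ten (aeval Y (zp e ^ j) Ω) (aeval Y (zp e ^ (n - 1 - j)) Ω), p.2⟫_ℂ‖ ≤ C1 * ‖p.1‖ := by
      intro j hj
      have hj' := Finset.mem_range.1 hj
      rw [← hstar, ← hstar]
      exact pairing_le hN hx i J hJ _ _ _ (hz j hj'.le) (hz _ (by omega)) (hη j hj'.le)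
        (hη _ (by omega)) p hp
    have := Finset.sum_le_card_nsmul _ _ _ h3
    rw [Finset.card_range, nsmul_eq_mul] at this
    linarith
  have hpair2 : ∀ p ∈ closure (partialGraph x Ω i : Set (H × HT H)),
      ‖⟪g, p.2⟫_ℂ‖ ≤ n * C1 * ‖p.1‖ := by
    intro p hp
    have hcl : IsClosed {p : H × HT H | ‖⟪g, p.2⟫_ℂ‖ ≤ n * C1 * ‖p.1‖} :=
      isClosed_le (by fun_prop) (by fun_prop)
    exact closure_minimal hpair hcl hp
  set y := aeval Y (zp e ^ n) with hy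
  have hyn : ‖y‖ ≤ 2 := norm_zp hY hR e n (hκ n le_rfl)
  have hyΩ : ‖y Ω‖ ≤ 2 := by
    have := y.le_opNorm Ω
    rw [hN.1] at this
    linarith
  have hyg : (y Ω, (Complex.I * e) • g) ∈ partialGraph x Ω i := by
    have h3 := poly_mem_graph x Ω i (zp e ^ n)
    have h4 : evT Ω (x i) (del (zp e ^ n)) = (Complex.I * e) • g := by
      rw [hgdef]
      unfold zp
      rw [del_z_pow, map_smul, map_sum]
      simp only [evT_tmul]
      rfl
    rw [h4] at h3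
    exact h3
  obtain ⟨p, hpG, hp1, hp2⟩ := resolvent_graph hS (B (y Ω))
  have hp3 : (p.1, p.2 i) ∈ (partialGraph x Ω i).topologicalClosure := hG hpG i
  have hp4 := hpair2 _ (sub_mem hp3 ((partialGraph x Ω i).le_topologicalClosure hyg))
  have hheat : heat S t (y Ω) = p.1 := by rw [hB, hp1, mul_apply_eq_comp]
  simp only [Prod.snd_sub, Prod.fst_sub] at hp4
  rw [← hheat, inner_sub_right, inner_smul_right, inner_self_eq_norm_sq_to_K] at hp4
  set d := ‖heat S t (y Ω) - y Ω‖ with hd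
  have h3 : ‖⟪g, p.2 i⟫_ℂ‖ ≤ ‖g‖ * (‖B‖ * 2) := by
    refine (norm_inner_le_norm _ _).trans (mul_le_mul_of_nonneg_left ?_ (norm_nonneg _))
    exact (hp2 i).trans ((B.le_opNorm _).trans (mul_le_mul_of_nonneg_left hyΩ (norm_nonneg _)))
  have h4 : ‖Complex.I * (e : ℂ) * ((‖g‖ : ℝ) : ℂ) ^ 2‖ = e * ‖g‖ ^ 2 := by
    simp [abs_of_pos he0]
  have h5 := norm_sub_norm_le (Complex.I * (e : ℂ) * ((‖g‖ : ℝ) : ℂ) ^ 2) ⟪g, p.2 i⟫_ℂ
  rw [norm_sub_rev, h4] at h5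
  have h6 : e * ‖g‖ ^ 2 - ‖g‖ * (‖B‖ * 2) ≤ n * C1 * d := by
    have : ‖⟪g, p.2 i⟫_ℂ - Complex.I * (e : ℂ) * ((‖g‖ : ℝ) : ℂ) ^ 2‖ ≤ n * C1 * d := hp4
    linarith
  have h12 : 1 / (128 * R * C1) ≤ d := hfin _ _ _ (norm_nonneg _) hC1pos hg h6
  refine ⟨((1 / 2 : ℝ) : ℂ) • y, smul_mem' N _ (aeval_mem N (hx i) _), ?_, ?_⟩
  · rw [norm_smul, Complex.norm_real, Real.norm_eq_abs, abs_of_pos (by norm_num)]
    linarith
  · rw [smul_apply, map_smul, ← smul_sub, norm_smul, Complex.norm_real, Real.norm_eq_abs,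
      abs_of_pos (by norm_num), ← hd]
    have : 1 / (256 * R * C1) = 1 / 2 * (1 / (128 * R * C1)) := by field_simp; ring
    rw [this]
    linarith

end Pool.Agent.H834Z.Fish
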