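import Pool.Agent.H834Z.FishDefs
import Pool.Agent.H834Z.FishAlg

/-!
Voiculescu's formula for the adjoint of the free difference quotient, in weak form.
-/

set_option autoImplicit false

open Polynomial
open scoped TensorProduct InnerProductSpace

noncomputable section
namespace Pool.Agent.H834Z.Fish

variable {H : Type*} [NormedAddCommGroup H] [InnerProductSpace ℂ H] [CompleteSpace H] {m : ℕ}

/-- the vector state -/
def tr (Ω : H) : (H →L[ℂ] H) →ₗ[ℂ] ℂ where
  toFun a := ⟪Ω, a Ω⟫_ℂ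
  map_add' a b := by simp
  map_smul' c a := by simp

omit [CompleteSpace H] in
lemma tr_apply (Ω : H) (a : H →L[ℂ] H) : tr Ω a = ⟪Ω, a Ω⟫_ℂ := rfl

lemma inner_eq_tr (Ω : H) (a b : H →L[ℂ] H) : ⟪a Ω, b Ω⟫_ℂ = tr Ω (star a * b) := by
  rw [tr_apply, ContinuousLinearMap.star_eq_adjoint, mul_apply_eq_comp,
    ContinuousLinearMap.adjoint_inner_right]

lemma tr_star (Ω : H) (a : H →L[ℂ] H) : tr Ω (star a) = starRingEnd ℂ (tr Ω a) := by
  rw [tr_apply, tr_apply, inner_conj_symm, ContinuousLinearMap.star_eq_adjoint,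
    ContinuousLinearMap.adjoint_inner_right]

/-- the state on polynomials -/
def tp (Ω : H) (Y : H →L[ℂ] H) : ℂ[X] →ₗ[ℂ] ℂ := tr Ω ∘ₗ (aeval Y).toLinearMap

omit [CompleteSpace H] in
lemma tp_apply (Ω : H) (Y : H →L[ℂ] H) (p : ℂ[X]) : tp Ω Y p = tr Ω (aeval Y p) := rfl

lemma star_aeval {Y : H →L[ℂ] H} (hY : IsSelfAdjoint Y) (p : ℂ[X]) :
    star (aeval Y p) = aeval Y (cj p) := by
  induction p using poly_ind with
  | hC c => rw [cj_C, aeval_C, aeval_C, Algebra.algebraMap_eq_smul_one,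
      Algebra.algebraMap_eq_smul_one, star_smul, star_one]; rfl
  | hadd f g hf hg => rw [map_add, star_add, hf, hg, map_add, map_add]
  | hX f hf =>
    rw [map_mul, star_mul, hf, aeval_X, hY.star_eq, map_mul, cj_X, mul_comm X, map_mul, aeval_X]

lemma tp_cj {Y : H →L[ℂ] H} (hY : IsSelfAdjoint Y) (Ω : H) (p : ℂ[X]) :
    tp Ω Y (cj p) = starRingEnd ℂ (tp Ω Y p) := by
  rw [tp_apply, ← star_aeval hY, tr_star, tp_apply]

lemma smul_mem' (N : VonNeumannAlgebra H) (c : ℂ) {a : H →L[ℂ] H} (ha : a ∈ N) : c • a ∈ N :=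
  N.toStarSubalgebra.smul_mem ha c

lemma aeval_mem (N : VonNeumannAlgebra H) {Y : H →L[ℂ] H} (hY : Y ∈ N) (p : ℂ[X]) :
    aeval Y p ∈ N := by
  induction p using poly_ind with
  | hC c => rw [aeval_C, Algebra.algebraMap_eq_smul_one]; exact smul_mem' N c (one_mem N)
  | hadd f g hf hg => rw [map_add]; exact add_mem hf hg
  | hX f hf => rw [map_mul, aeval_X]; exact mul_mem hY hf

omit [CompleteSpace H] in
lemma word_nil (x : Fin m → H →L[ℂ] H) : word x [] = 1 := rfl

omit [CompleteSpace H] in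
lemma word_cons (x : Fin m → H →L[ℂ] H) (j : Fin m) (w : List (Fin m)) :
    word x (j :: w) = x j * word x w := by simp [word]

omit [CompleteSpace H] in
lemma word_snoc (x : Fin m → H →L[ℂ] H) (j : Fin m) (w : List (Fin m)) :
    word x (w ++ [j]) = word x w * x j := by simp [word]

lemma word_mem (N : VonNeumannAlgebra H) {x : Fin m → H →L[ℂ] H} (hx : ∀ i, x i ∈ N)
    (w : List (Fin m)) : word x w ∈ N := by
  induction w with
  | nil => exact one_mem N
  | cons j w ih => rw [word_cons]; exact mul_mem (hx j) ih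

lemma norm_star_apply {N : VonNeumannAlgebra H} {Ω : H} (hN : IsStandardForm N Ω)
    {a : H →L[ℂ] H} (ha : a ∈ N) : ‖(star a) Ω‖ = ‖a Ω‖ := by
  have h1 : ⟪(star a) Ω, (star a) Ω⟫_ℂ = ⟪a Ω, a Ω⟫_ℂ := by
    rw [inner_eq_tr, inner_eq_tr, star_star]
    exact hN.2.2 a ha (star a) (star_mem ha)
  rw [norm_eq_sqrt_re_inner (𝕜 := ℂ), norm_eq_sqrt_re_inner (𝕜 := ℂ), h1]

lemma norm_mul_right {N : VonNeumannAlgebra H} {Ω : H} (hN : IsStandardForm N Ω)
    {y b : H →L[ℂ] H} (hy : y ∈ N) (hb : b ∈ N) : ‖(y * b) Ω‖ ≤ ‖b‖ * ‖y Ω‖ := by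
  rw [← norm_star_apply hN (mul_mem hy hb), star_mul, mul_apply_eq_comp, ← norm_star_apply hN hy,
    ← norm_star b]
  exact (star b).le_opNorm _

omit [CompleteSpace H] in
lemma inner_ten (a b c d : H) : ⟪ten a b, ten c d⟫_ℂ = ⟪a, c⟫_ℂ * ⟪b, d⟫_ℂ := by
  unfold ten
  rw [UniformSpace.Completion.inner_coe, TensorProduct.inner_tmul]

/-- difference quotient with a left factor -/
def dqP (x : Fin m → H →L[ℂ] H) (Ω : H) (i : Fin m) (a : H →L[ℂ] H) (w : List (Fin m)) : HT H :=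
  ∑ k ∈ Finset.range w.length,
    if w[k]? = some i then ten ((a * word x (w.take k)) Ω) (word x (w.drop (k + 1)) Ω) else 0

omit [CompleteSpace H] in
lemma dqP_one (x : Fin m → H →L[ℂ] H) (Ω : H) (i : Fin m) (w : List (Fin m)) :
    dqP x Ω i 1 w = dq x Ω i w := by simp [dqP, dq]

omit [CompleteSpace H] in
lemma dqP_nil (x : Fin m → H →L[ℂ] H) (Ω : H) (i : Fin m) (a : H →L[ℂ] H) :
    dqP x Ω i a [] = 0 := by simp [dqP]

omit [CompleteSpace H] in
lemma dqP_cons (x : Fin m → H →L[ℂ] H) (Ω : H) (i j : Fin m) (a : H →L[ℂ] H) (w : List (Fin m)) :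
    dqP x Ω i a (j :: w) =
      (if j = i then ten (a Ω) (word x w Ω) else 0) + dqP x Ω i (a * x j) w := by
  unfold dqP
  rw [List.length_cons, Finset.sum_range_succ', add_comm]
  congr 1
  simp [word_nil]

/-- the scalar form of `a · ∂ w · b` -/
def TT (x : Fin m → H →L[ℂ] H) (Ω : H) (i : Fin m) :
    (H →L[ℂ] H) → List (Fin m) → (H →L[ℂ] H) → ℂ
  | _, [], _ => 0
  | a, j :: w, b => (if j = i then tr Ω a * tr Ω (word x w * b) else 0) + TT x Ω i (a * x j) w b

lemma inner_dqP {N : VonNeumannAlgebra H} {Ω : H} (hN : IsStandardForm N Ω)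
    {x : Fin m → H →L[ℂ] H} (hx : ∀ i, x i ∈ N) (i : Fin m) (a : H →L[ℂ] H) {b : H →L[ℂ] H}
    (hb : b ∈ N) (w : List (Fin m)) (c : H →L[ℂ] H) :
    ⟪ten (star a Ω) (star b Ω), dqP x Ω i c w⟫_ℂ = TT x Ω i (a * c) w b := by
  induction w generalizing c with
  | nil => simp [dqP_nil, TT]
  | cons j w ih =>
    rw [dqP_cons, inner_add_right, ih, TT, mul_assoc]
    congr 1
    split_ifs
    · rw [inner_ten, inner_eq_tr, inner_eq_tr, star_star, star_star]
      congr 1
      exact hN.2.2 b hb _ (word_mem N hx w)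
    · simp

omit [CompleteSpace H] in
lemma TT_add_left (x : Fin m → H →L[ℂ] H) (Ω : H) (i : Fin m) (w : List (Fin m))
    (a a' b : H →L[ℂ] H) : TT x Ω i (a + a') w b = TT x Ω i a w b + TT x Ω i a' w b := by
  induction w generalizing a a' with
  | nil => simp [TT]
  | cons j w ih =>
    simp only [TT, add_mul, ih, map_add]
    split_ifs <;> ring

omit [CompleteSpace H] in
lemma TT_add_right (x : Fin m → H →L[ℂ] H) (Ω : H) (i : Fin m) (w : List (Fin m))
    (a b b' : H →L[ℂ] H) : TT x Ω i a w (b + b') = TT x Ω i a w b + TT x Ω i a w b' := by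
  induction w generalizing a with
  | nil => simp [TT]
  | cons j w ih =>
    simp only [TT, mul_add, ih, map_add]
    split_ifs <;> ring

omit [CompleteSpace H] in
lemma TT_smul_left (x : Fin m → H →L[ℂ] H) (Ω : H) (i : Fin m) (w : List (Fin m)) (c : ℂ)
    (a b : H →L[ℂ] H) : TT x Ω i (c • a) w b = c * TT x Ω i a w b := by
  induction w generalizing a with
  | nil => simp [TT]
  | cons j w ih =>
    simp only [TT, smul_mul_assoc, ih, map_smul, smul_eq_mul]
    split_ifs <;> ring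

omit [CompleteSpace H] in
lemma TT_smul_right (x : Fin m → H →L[ℂ] H) (Ω : H) (i : Fin m) (w : List (Fin m)) (c : ℂ)
    (a b : H →L[ℂ] H) : TT x Ω i a w (c • b) = c * TT x Ω i a w b := by
  induction w generalizing a with
  | nil => simp [TT]
  | cons j w ih =>
    simp only [TT, mul_smul_comm, ih, map_smul, smul_eq_mul]
    split_ifs <;> ring

omit [CompleteSpace H] in
lemma TT_snoc (x : Fin m → H →L[ℂ] H) (Ω : H) (i : Fin m) (w : List (Fin m))
    (a b : H →L[ℂ] H) :
    TT x Ω i a (w ++ [i]) b = TT x Ω i a w (x i * b) + tr Ω (a * word x w) * tr Ω b := by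
  induction w generalizing a with
  | nil => simp [TT, word_nil]
  | cons j w ih =>
    rw [List.cons_append, TT, TT, ih, word_snoc, word_cons, mul_assoc, mul_assoc]
    ring

omit [CompleteSpace H] in
lemma aeval_X_mul (Y : H →L[ℂ] H) (f : ℂ[X]) : aeval Y (X * f) = Y * aeval Y f := by
  rw [map_mul, aeval_X]

omit [CompleteSpace H] in
lemma aeval_X_mul' (Y : H →L[ℂ] H) (f : ℂ[X]) : aeval Y (X * f) = aeval Y f * Y := by
  rw [mul_comm, map_mul, aeval_X]

omit [CompleteSpace H] in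
lemma aeval_eta_X_mul (Ω : H) (Y : H →L[ℂ] H) (f : ℂ[X]) :
    aeval Y (eta (tp Ω Y) (X * f)) =
      tr Ω (aeval Y f) • (1 : H →L[ℂ] H) + Y * aeval Y (eta (tp Ω Y) f) := by
  rw [eta_X_mul, map_add, aeval_X_mul, aeval_C, Algebra.algebraMap_eq_smul_one, tp_apply]

/-- Voiculescu's formula on words -/
theorem voic_word {N : VonNeumannAlgebra H} {Ω : H} (hN : IsStandardForm N Ω)
    {x : Fin m → H →L[ℂ] H} (hx : ∀ i, x i ∈ N) (i : Fin m) (J : H)
    (hJ : ∀ p ∈ partialGraph x Ω i, ⟪J, p.1⟫_ℂ = ⟪ten Ω Ω, p.2⟫_ℂ) (a b : ℂ[X])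
    (w : List (Fin m)) :
    ⟪J, (aeval (x i) a * word x w * aeval (x i) b) Ω⟫_ℂ =
      tr Ω (aeval (x i) (eta (tp Ω (x i)) a) * word x w * aeval (x i) b) +
      tr Ω (aeval (x i) a * word x w * aeval (x i) (eta (tp Ω (x i)) b)) +
      TT x Ω i (aeval (x i) a) w (aeval (x i) b) := by
  have h0 : ∀ w : List (Fin m), ⟪J, word x w Ω⟫_ℂ = TT x Ω i 1 w 1 := by
    intro w
    have h1 := hJ (word x w Ω, dq x Ω i w) (Submodule.subset_span ⟨w, rfl⟩)
    have h2 := inner_dqP hN hx i 1 (one_mem N) w 1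
    rw [dqP_one, star_one, one_mul] at h2
    exact h1.trans h2
  have h1 : ∀ (b : ℂ[X]) (w : List (Fin m)), ⟪J, (word x w * aeval (x i) b) Ω⟫_ℂ =
      tr Ω (word x w * aeval (x i) (eta (tp Ω (x i)) b)) + TT x Ω i 1 w (aeval (x i) b) := by
    intro b
    induction b using poly_ind with
    | hC c =>
      intro w
      rw [eta_C, map_zero, mul_zero, map_zero, zero_add, aeval_C, Algebra.algebraMap_eq_smul_one,
        TT_smul_right, mul_smul_comm, mul_one, smul_apply, inner_smul_right, h0]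
    | hadd f g hf hg =>
      intro w
      simp only [map_add, mul_add, add_apply, inner_add_right, hf, hg,
        TT_add_right]
      ring
    | hX f hf =>
      intro w
      have h2 := hf (w ++ [i])
      rw [TT_snoc, word_snoc, one_mul] at h2
      rw [aeval_eta_X_mul, aeval_X_mul, mul_add, (tr Ω).map_add, mul_smul_comm, mul_one,
        (tr Ω).map_smul, ← mul_assoc, ← mul_assoc, h2, smul_eq_mul]
      ring
  induction a using poly_ind generalizing w with
  | hC c =>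
    rw [eta_C, map_zero, zero_mul, zero_mul, map_zero, zero_add, aeval_C,
      Algebra.algebraMap_eq_smul_one, TT_smul_left, smul_mul_assoc, smul_mul_assoc, smul_mul_assoc,
      one_mul, smul_apply, inner_smul_right, h1, map_smul, smul_eq_mul]
    ring
  | hadd f g hf hg =>
    simp only [map_add, add_mul, add_apply, inner_add_right, hf, hg,
      TT_add_left]
    ring
  | hX f hf =>
    have h2 := hf (i :: w)
    rw [TT, if_pos rfl, word_cons] at h2
    rw [aeval_eta_X_mul, ← aeval_X_mul, aeval_X_mul', aeval_X_mul', add_mul, add_mul,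
      (tr Ω).map_add, smul_mul_assoc, smul_mul_assoc, one_mul, (tr Ω).map_smul, smul_eq_mul]
    simp only [mul_assoc] at h2 ⊢
    rw [h2]
    ring

/-- Voiculescu's formula on the graph -/
theorem voic_graph {N : VonNeumannAlgebra H} {Ω : H} (hN : IsStandardForm N Ω)
    {x : Fin m → H →L[ℂ] H} (hx : ∀ i, x i ∈ N) (i : Fin m) (J : H)
    (hJ : ∀ p ∈ partialGraph x Ω i, ⟪J, p.1⟫_ℂ = ⟪ten Ω Ω, p.2⟫_ℂ)
    (p : H × HT H) (hp : p ∈ partialGraph x Ω i) :
    ∃ y ∈ N, p.1 = y Ω ∧ ∀ a b : ℂ[X],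
      ⟪ten (star (aeval (x i) a) Ω) (star (aeval (x i) b) Ω), p.2⟫_ℂ =
      ⟪J, (aeval (x i) a * y * aeval (x i) b) Ω⟫_ℂ -
      tr Ω (aeval (x i) (eta (tp Ω (x i)) a) * y * aeval (x i) b) -
      tr Ω (aeval (x i) a * y * aeval (x i) (eta (tp Ω (x i)) b)) := by
  induction hp using Submodule.span_induction with
  | mem p hp =>
    obtain ⟨w, rfl⟩ := hp
    refine ⟨word x w, word_mem N hx w, rfl, fun a b => ?_⟩
    have h1 := inner_dqP hN hx i (aeval (x i) a) (aeval_mem N (hx i) b) w 1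
    rw [dqP_one, mul_one] at h1
    rw [voic_word hN hx i J hJ a b w]
    simp only
    rw [h1]
    ring
  | zero => exact ⟨0, zero_mem N, by simp, fun a b => by simp⟩
  | add p q _ _ hp hq =>
    obtain ⟨y, hy, hy1, hy2⟩ := hp
    obtain ⟨z, hz, hz1, hz2⟩ := hq
    refine ⟨y + z, add_mem hy hz, by simp [hy1, hz1], fun a b => ?_⟩
    simp only [Prod.snd_add, inner_add_right, hy2, hz2, mul_add, add_mul, map_add,
      add_apply]
    ring
  | smul c p _ hp =>
    obtain ⟨y, hy, hy1, hy2⟩ := hp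
    refine ⟨c • y, smul_mem' N c hy, by simp [hy1], fun a b => ?_⟩
    simp only [Prod.smul_snd, inner_smul_right, hy2, mul_smul_comm, smul_mul_assoc, map_smul,
      smul_apply, smul_eq_mul]
    ring

/-- the conjugate variable on polynomials in one variable -/
theorem conj_poly {N : VonNeumannAlgebra H} {Ω : H} (hN : IsStandardForm N Ω)
    {x : Fin m → H →L[ℂ] H} (hx : ∀ i, x i ∈ N) (i : Fin m) (J : H)
    (hJ : ∀ p ∈ partialGraph x Ω i, ⟪J, p.1⟫_ℂ = ⟪ten Ω Ω, p.2⟫_ℂ) (a : ℂ[X]) :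
    ⟪J, (aeval (x i) a) Ω⟫_ℂ = tp Ω (x i) (eta (tp Ω (x i)) a) := by
  have h := voic_word hN hx i J hJ a 1 []
  rw [eta_one] at h
  simpa [word_nil, TT, tp_apply] using h

/-- evaluation of tensors -/
def evT (Ω : H) (Y : H →L[ℂ] H) : ℂ[X] ⊗[ℂ] ℂ[X] →ₗ[ℂ] HT H :=
  (UniformSpace.Completion.toComplL (𝕜 := ℂ) (E := H ⊗[ℂ] H)).toLinearMap ∘ₗ
    TensorProduct.map
      ((ContinuousLinearMap.apply ℂ H Ω).toLinearMap ∘ₗ (aeval Y).toLinearMap)
      ((ContinuousLinearMap.apply ℂ H Ω).toLinearMap ∘ₗ (aeval Y).toLinearMap)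

omit [CompleteSpace H] in
lemma evT_tmul (Ω : H) (Y : H →L[ℂ] H) (a b : ℂ[X]) :
    evT Ω Y (a ⊗ₜ[ℂ] b) = ten (aeval Y a Ω) (aeval Y b Ω) := by
  simp [evT, ten]

omit [CompleteSpace H] in
lemma word_replicate (x : Fin m → H →L[ℂ] H) (i : Fin m) (k : ℕ) :
    word x (List.replicate k i) = x i ^ k := by simp [word]

omit [CompleteSpace H] in
lemma evT_delM (x : Fin m → H →L[ℂ] H) (Ω : H) (i : Fin m) (k : ℕ) (a : ℂ[X]) :
    evT Ω (x i) ((a ⊗ₜ[ℂ] (1 : ℂ[X])) * delM k) =
      dqP x Ω i (aeval (x i) a) (List.replicate k i) := by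
  induction k generalizing a with
  | zero => simp [delM, dqP_nil]
  | succ k ih =>
    rw [List.replicate_succ, dqP_cons, if_pos rfl, delM, mul_add, ← mul_assoc,
      Algebra.TensorProduct.tmul_mul_tmul, Algebra.TensorProduct.tmul_mul_tmul, map_add, mul_one,
      one_mul, one_mul, ih, evT_tmul, word_replicate, map_mul, aeval_X, map_pow, aeval_X]

omit [CompleteSpace H] in
lemma poly_mem_graph (x : Fin m → H →L[ℂ] H) (Ω : H) (i : Fin m) (f : ℂ[X]) :
    (aeval (x i) f Ω, evT Ω (x i) (del f)) ∈ partialGraph x Ω i := by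
  induction f using Polynomial.induction_on' with
  | add f g hf hg =>
    have := add_mem hf hg
    simpa using this
  | monomial n a =>
    have h1 : (monomial n a : ℂ[X]) = a • X ^ n := by
      rw [smul_eq_C_mul, C_mul_X_pow_eq_monomial]
    have h2 := evT_delM x Ω i n 1
    rw [← Algebra.TensorProduct.one_def, one_mul, map_one, dqP_one] at h2
    have h3 : (word x (List.replicate n i) Ω, dq x Ω i (List.replicate n i)) ∈
        partialGraph x Ω i := Submodule.subset_span ⟨_, rfl⟩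
    have h4 := Submodule.smul_mem _ a h3
    rw [h1, map_smul, map_smul, map_smul, del_pow, h2, map_pow, aeval_X]
    rw [word_replicate] at h4
    simpa using h4

end Pool.Agent.H834Z.Fish
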